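import Mathlib

/-!
The derived `p`-series of a subgroup.
-/

namespace Pool.Agent.Lib.MP_34a149_al.PG

/-- The derived `p`-series of a subgroup `H`: `D_0 = H`, and `D_{n+1}` is generated by the
commutators and the `p`-th powers of elements of `D_n`. -/
def pDerived {G : Type} [Group G] (p : ℕ) (H : Subgroup G) : ℕ → Subgroup G
  | 0 => H
  | n + 1 => ⁅pDerived p H n, pDerived p H n⁆ ⊔
      Subgroup.closure {y | ∃ x ∈ pDerived p H n, x ^ p = y}

end Pool.Agent.Lib.MP_34a149_al.PG
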