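import Pool.Agent.Lib.MP_34a149_al.Kaz
import Pool.Agent.Lib.MP_34a149_al.PG.Defs

/-!
Shared definitions for the comparison of mod `p` and rational first Betti numbers.
-/

namespace Pool.Agent.Lib.MP_34a149_al.PG

open Finset

/-- Homomorphisms from a group to the additive group of a commutative ring. -/
def homs (A : Type) [CommRing A] (H : Type) [Group H] : Submodule A (H → A) where
  carrier := {l | ∀ g h, l (g * h) = l g + l h}
  add_mem' := fun {a b} ha hb g h => by
    simp only [Pi.add_apply, ha g h, hb g h]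
    ring
  zero_mem' := fun g h => by simp
  smul_mem' := fun r a ha g h => by
    simp only [Pi.smul_apply, ha g h, smul_add]

lemma mem_homs {A : Type} [CommRing A] {H : Type} [Group H] {l : H → A} :
    l ∈ homs A H ↔ ∀ g h, l (g * h) = l g + l h := Iff.rfl

lemma homs_one {A : Type} [CommRing A] {H : Type} [Group H] {l : H → A} (hl : l ∈ homs A H) :
    l 1 = 0 := by
  have := hl 1 1
  simpa using this

lemma homs_inv {A : Type} [CommRing A] {H : Type} [Group H] {l : H → A} (hl : l ∈ homs A H)
    (g : H) : l g⁻¹ = - l g := by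
  have := hl g g⁻¹
  rw [mul_inv_cancel, homs_one hl] at this
  exact eq_neg_of_add_eq_zero_right this.symm

lemma homs_eq_zero {A : Type} [CommRing A] {H : Type} [Group H] {l : H → A} (hl : l ∈ homs A H)
    {S : Set H} (h : ∀ g ∈ S, l g = 0) : ∀ g ∈ Subgroup.closure S, l g = 0 := by
  intro g hg
  induction hg using Subgroup.closure_induction with
  | mem x hx => exact h x hx
  | one => exact homs_one hl
  | mul x y _ _ hx hy => rw [hl, hx, hy, add_zero]
  | inv x _ hx => rw [homs_inv hl, hx, neg_zero]

lemma exists_homs_inj (A : Type) [CommRing A] (H : Type) [Group H] [hH : Group.FG H] :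
    ∃ (S : Finset H) (f : homs A H →ₗ[A] (S → A)), Function.Injective f := by
  obtain ⟨S, hS⟩ := hH.out
  refine ⟨S, LinearMap.funLeft A A (fun x : S => (x : H)) ∘ₗ (homs A H).subtype, ?_⟩
  rw [injective_iff_map_eq_zero]
  intro l hl
  ext g
  exact homs_eq_zero l.2 (fun x hx => congrFun hl ⟨x, hx⟩) g (by rw [hS]; trivial)

instance homs_moduleFinite (F : Type) [Field F] (H : Type) [Group H] [Group.FG H] :
    Module.Finite F (homs F H) := by
  obtain ⟨S, f, hf⟩ := exists_homs_inj F H
  exact Module.Finite.of_injective f hf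

instance homs_finite (A : Type) [CommRing A] [Finite A] (H : Type) [Group H] [Group.FG H] :
    Finite (homs A H) := by
  obtain ⟨S, f, hf⟩ := exists_homs_inj A H
  exact Finite.of_injective f hf

/-- `x a` are generators of cyclic summands of order `n a` (with `0` for infinite order) of the
abelianization, with coordinate maps `c a`. -/
structure IsStruct {P ι : Type} [Group P] (n : ι → ℕ) (x : ι → P)
    (c : ∀ a, P →* Multiplicative (ZMod (n a))) : Prop where
  self : ∀ a, c a (x a) = Multiplicative.ofAdd 1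
  ne : ∀ a b, a ≠ b → c a (x b) = 1
  ker : ∀ g, (∀ a, c a g = 1) → g ∈ commutator P

/-- The number of summands whose order is divisible by `q`. -/
def cnt {ι : Type} [Fintype ι] (n : ι → ℕ) (q : ℕ) : ℕ := #{a | q ∣ n a}

/-- The elements of `K` killed by all homomorphisms from `K` to `F`. -/
def Fr (F : Type) [Field F] {P : Type} [Group P] (K : Subgroup P) : Subgroup P where
  carrier := {g | ∃ h : g ∈ K, ∀ l ∈ homs F K, l ⟨g, h⟩ = 0}
  mul_mem' := by
    rintro a b ⟨ha, h1⟩ ⟨hb, h2⟩
    refine ⟨K.mul_mem ha hb, fun l hl => ?_⟩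
    have := hl ⟨a, ha⟩ ⟨b, hb⟩
    rw [h1 l hl, h2 l hl, add_zero] at this
    exact this
  one_mem' := ⟨K.one_mem, fun l hl => homs_one hl⟩
  inv_mem' := by
    rintro a ⟨ha, h1⟩
    refine ⟨K.inv_mem ha, fun l hl => ?_⟩
    have := homs_inv hl ⟨a, ha⟩
    rw [h1 l hl, neg_zero] at this
    exact this

/-- The sum of the edge function `ω` along the path with label `w` that starts at `q`. -/
def wint {Q β A : Type} [Monoid Q] [AddCommMonoid A] (y : β → Q) (ω : Q × β → A) :
    List β → Q → A
  | [], _ => 0
  | b :: w, q => ω (q, b) + wint y ω w (q * y b)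

/-- The Fox derivative of a positive word, paired with the vector `v`. -/
def wfox {β R : Type} [CommRing R] (ξ v : β → R) : List β → R
  | [] => 0
  | b :: w => v b + ξ b * wfox ξ v w

/-- The integral chains `c r` are cycles of the Cayley graph, and a real edge function that
vanishes on all their translates is a coboundary. -/
structure IsPres {G α ρ : Type} [Group G] (s : α → G) (c : ρ → G × α →₀ ℤ) : Prop where
  gen : Subgroup.closure (Set.range s) = ⊤
  cycle : ∀ (A : Type) [AddCommGroup A] (f : G → A) (r : ρ) (x : G),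
    ((c r).sum fun e k => k • (f (x * e.1 * s e.2) - f (x * e.1))) = 0
  fill : ∀ ω : G × α → ℝ, (∀ r x, ((c r).sum fun e k => (k : ℝ) * ω (x * e.1, e.2)) = 0) →
    ∃ f, ω = df s f

open Classical in
/-- The boundary matrix of the finite cover that belongs to `H`. -/
noncomputable def Jmat {G α ρ : Type} [Group G] (c : ρ → G × α →₀ ℤ) (H : Subgroup G) :
    Matrix ((G ⧸ H) × ρ) ((G ⧸ H) × α) ℤ :=
  fun u v => (c u.2).sum fun e k => if e.1⁻¹ • u.1 = v.1 ∧ e.2 = v.2 then k else 0

/-- A bound for the row and column sums of all boundary matrices. -/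
noncomputable def Lc {G α ρ : Type} [Fintype ρ] (c : ρ → G × α →₀ ℤ) : ℕ :=
  1 + ∑ r, (c r).sum fun _ k => k.natAbs

/-- The dimension of the real kernel of an integer matrix. -/
noncomputable def kerDim {ι κ : Type} [Fintype κ] (J : Matrix ι κ ℤ) : ℕ :=
  Module.finrank ℝ (LinearMap.ker (J.map (Int.cast : ℤ → ℝ)).mulVecLin)

/-- The contraction `1 - JᵀJ / L²`. -/
noncomputable def Tmat {ι κ : Type} [Fintype ι] [DecidableEq κ] (J : Matrix ι κ ℤ) (L : ℕ) :
    Matrix κ κ ℝ :=
  1 - ((L : ℝ) ^ 2)⁻¹ • ((J.map (Int.cast : ℤ → ℝ)).transpose * J.map (Int.cast : ℤ → ℝ))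

end Pool.Agent.Lib.MP_34a149_al.PG
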