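import Pool.Agent.Lib.MP_34a149_al.PG.Words

/-!
Two families of chains that lie deep in derived `p`-series.
-/

namespace Pool.Agent.Lib.MP_34a149_al.PG

open Filter

variable {G : Type} [Group G] [Group.FG G] (p : ℕ) [Fact p.Prime]
  (Γ : ℕ → Subgroup G) [∀ i, (Γ i).Normal] [∀ i, (Γ i).FiniteIndex]

/-- Chains cofinal in the pro-`p` topology of a member. -/
theorem deep_of_cofinal (hΓ : Antitone Γ) (j0 : ℕ)
    (h1 : ∀ i, j0 ≤ i → ∃ e : ℕ, (Γ i).relIndex (Γ j0) = p ^ e)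
    (h2 : ∀ N : Subgroup G, N ≤ Γ j0 → (N.subgroupOf (Γ j0)).Normal →
      (∃ e : ℕ, N.relIndex (Γ j0) = p ^ e) → ∃ i, Γ i ≤ N) (j n : ℕ) :
    ∀ᶠ i in atTop, ∃ H : Subgroup G, H ≤ Γ j ∧ Γ i ≤ pDerived p H n ∧
      ∃ e : ℕ, (Γ i).relIndex H = p ^ e := by
  have a1 : Γ (max j j0) ≤ Γ j0 := hΓ (le_max_right _ _)
  have a2 : pDerived p (Γ (max j j0)) n ≤ Γ (max j j0) := pDerived_anti p _ (Nat.zero_le _)
  obtain ⟨e1, he1⟩ := h1 _ (le_max_right j j0)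
  obtain ⟨e2, he2⟩ := pDerived_relIndex p (Γ (max j j0)) n
  obtain ⟨i0, hi0⟩ := h2 _ (a2.trans a1) inferInstance ⟨e2 + e1, by
    rw [← Subgroup.relIndex_mul_relIndex _ _ _ a2 a1, he1, he2, pow_add]⟩
  filter_upwards [eventually_ge_atTop (max i0 (max j j0))] with i hi
  have b1 : max j j0 ≤ i := (le_max_right _ _).trans hi
  obtain ⟨e, he⟩ := h1 i ((le_max_right _ _).trans b1)
  obtain ⟨e', -, he'⟩ := (Nat.dvd_prime_pow (Fact.out : p.Prime)).1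
    (he ▸ Dvd.intro _ (Subgroup.relIndex_mul_relIndex (Γ i) _ _ (hΓ b1) a1))
  exact ⟨_, hΓ (le_max_left _ _), (hΓ ((le_max_left _ _).trans hi)).trans hi0, e', he'⟩

/-- The diagonal chain `D_i (G_i)` of any chain. -/
theorem deep_diag (hΓ : Antitone Γ) (hΓ1 : ⨅ i, Γ i = ⊥) :
    (Antitone fun i => pDerived p (Γ i) i) ∧ (∀ i, (pDerived p (Γ i) i).Normal) ∧
    (∀ i, (pDerived p (Γ i) i).FiniteIndex) ∧ ⨅ i, pDerived p (Γ i) i = ⊥ ∧
    ∀ j n : ℕ, ∀ᶠ i in atTop, ∃ H : Subgroup G, H ≤ pDerived p (Γ j) j ∧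
      pDerived p (Γ i) i ≤ pDerived p H n ∧ ∃ e : ℕ, (pDerived p (Γ i) i).relIndex H = p ^ e := by
  have a0 : ∀ i, pDerived p (Γ i) i ≤ Γ i := fun i => pDerived_anti p _ (Nat.zero_le _)
  have a1 : ∀ i k, (pDerived p (Γ i) k).FiniteIndex := fun i k => ⟨by
    obtain ⟨e, he⟩ := pDerived_relIndex p (Γ i) k
    rw [← Subgroup.relIndex_mul_index (pDerived_anti p (Γ i) (Nat.zero_le k)), pDerived, he]
    exact mul_ne_zero (pow_ne_zero _ (Fact.out : p.Prime).ne_zero)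
      Subgroup.FiniteIndex.index_ne_zero⟩
  refine ⟨fun a b h => (pDerived_mono p (hΓ h) b).trans (pDerived_anti p _ h),
    fun i => inferInstance, fun i => a1 i i, eq_bot_iff.2 (hΓ1 ▸ iInf_mono a0), fun j n => ?_⟩
  filter_upwards [eventually_ge_atTop (j + n)] with i hi
  obtain ⟨k, rfl⟩ := Nat.exists_eq_add_of_le hi
  have := a1 (j + n + k) j
  refine ⟨pDerived p (Γ (j + n + k)) j, pDerived_mono p (hΓ (by omega)) j, ?_, ?_⟩
  · rw [pDerived_add]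
    exact pDerived_anti p _ (by omega)
  · have := pDerived_relIndex p (pDerived p (Γ (j + n + k)) j) (n + k)
    rwa [pDerived_add, ← add_assoc] at this

end Pool.Agent.Lib.MP_34a149_al.PG
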