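import Pool.Agent.Lib.MP_34a149_al.PG.Base

/-!
Generation modulo a subgroup of prime power index, and a dimension count for covers.
-/

namespace Pool.Agent.Lib.MP_34a149_al.PG

open Finset

variable {P : Type} [Group P]

lemma Fr_le (F : Type) [Field F] (K : Subgroup P) : Fr F K ≤ K := by
  rintro g ⟨h, -⟩
  exact h

instance Fr_normal (F : Type) [Field F] (K : Subgroup P) [K.Normal] : (Fr F K).Normal := by
  refine ⟨?_⟩
  rintro g ⟨h, hg⟩ x
  have hc : ∀ k : K, x * k * x⁻¹ ∈ K := fun k => Subgroup.Normal.conj_mem inferInstance _ k.2 x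
  refine ⟨hc ⟨g, h⟩, fun l hl => hg (fun k => l ⟨_, hc k⟩) fun a b => ?_⟩
  exact (congrArg l (Subtype.ext (by simp [mul_assoc]))).trans (hl ⟨_, hc a⟩ ⟨_, hc b⟩)

instance Fr_finiteIndex (F : Type) [Field F] [Finite F] [Group.FG P] (K : Subgroup P)
    [K.FiniteIndex] : (Fr F K).FiniteIndex := by
  let φ : K →* Multiplicative (homs F K → F) :=
    { toFun := fun k => Multiplicative.ofAdd fun l => l.1 k
      map_one' := congrArg Multiplicative.ofAdd (funext fun l => homs_one l.2)
      map_mul' := fun a b => congrArg Multiplicative.ofAdd (funext fun l => l.2 a b) }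
  have h1 : (φ.ker.map K.subtype).FiniteIndex := ⟨by
    rw [Subgroup.index_map_subtype]
    exact mul_ne_zero Subgroup.FiniteIndex.index_ne_zero Subgroup.FiniteIndex.index_ne_zero⟩
  refine Subgroup.finiteIndex_of_le (H := φ.ker.map K.subtype) ?_
  rintro _ ⟨k, hk, rfl⟩
  exact ⟨k.2, fun l hl => congrFun (congrArg Multiplicative.toAdd hk) ⟨l, hl⟩⟩

lemma pow_mem_Fr (p : ℕ) (F : Type) [Field F] [CharP F p] {K : Subgroup P} {g : P} (hg : g ∈ K) :
    g ^ p ∈ Fr F K := by
  refine ⟨K.pow_mem hg p, fun l hl => ?_⟩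
  have h : ∀ n : ℕ, l (⟨g, hg⟩ ^ n) = n * l ⟨g, hg⟩ := fun n => by
    induction n with
    | zero => simpa using homs_one hl
    | succ n ih => rw [pow_succ, hl, ih, Nat.cast_succ, add_mul, one_mul]
  have h1 := h p
  rw [CharP.cast_eq_zero, zero_mul] at h1
  exact h1

theorem burnside (p : ℕ) [Fact p.Prime] (W : Subgroup P) [W.Normal] [W.FiniteIndex]
    (hW : ∀ g : P, ∃ e, g ^ p ^ e ∈ W) (S : Set P)
    (hS : ∀ l ∈ homs (ZMod p) P, (∀ g ∈ S, l g = 0) → l = 0) :
    Subgroup.closure S ⊔ W = ⊤ := by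
  have hp : p.Prime := Fact.out
  have hE : IsPGroup p (P ⧸ W) := fun q => by
    obtain ⟨g, rfl⟩ := QuotientGroup.mk_surjective q
    obtain ⟨e, he⟩ := hW g
    exact ⟨e, by rw [← QuotientGroup.mk_pow, QuotientGroup.eq_one_iff]; exact he⟩
  by_contra hne
  have h1 : (Subgroup.closure S).map (QuotientGroup.mk' W) ≠ ⊤ := fun h => hne (by
    rw [← QuotientGroup.ker_mk' W, ← Subgroup.comap_map_eq, h, Subgroup.comap_top])
  obtain ⟨n, hn⟩ := IsPGroup.iff_card.1 hE
  obtain ⟨k, hk⟩ := IsPGroup.iff_card.1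
    (hE.to_subgroup ((Subgroup.closure S).map (QuotientGroup.mk' W)))
  have h2 : k < n := by
    rw [← Nat.pow_lt_pow_iff_right hp.one_lt, ← hn, ← hk]
    exact lt_of_le_of_ne (Subgroup.card_le_card_group _) fun e =>
      h1 (Subgroup.eq_top_of_card_eq _ e)
  obtain ⟨m, rfl⟩ : ∃ m, n = m + 1 := ⟨n - 1, by omega⟩
  obtain ⟨M, hM, hle⟩ := Sylow.exists_subgroup_card_pow_prime_le p (m := m)
    (by rw [hn]; exact pow_dvd_pow _ m.le_succ) _ hk (by omega)
  have h3 : M.index = p := by
    have := M.card_mul_index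
    rw [hM, hn, pow_succ] at this
    exact Nat.eq_of_mul_eq_mul_left (pow_pos hp.pos m) this
  have : M.Normal := Subgroup.normal_of_index_eq_minFac_card (by
    rw [h3, hn, hp.pow_minFac m.succ_ne_zero])
  let e : ((P ⧸ W) ⧸ M) ≃* Multiplicative (ZMod p) :=
    mulEquivOfPrimeCardEq (p := p) h3 (by simp)
  have h4 := hS (fun g => Multiplicative.toAdd (e ((g : P ⧸ W) : (P ⧸ W) ⧸ M)))
    (fun g h => by simp) fun g hg => by
      have : ((g : P ⧸ W) : (P ⧸ W) ⧸ M) = 1 :=
        (QuotientGroup.eq_one_iff _).2 (hle ⟨g, Subgroup.subset_closure hg, rfl⟩)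
      simp [this]
  obtain ⟨q, hq⟩ := e.surjective (Multiplicative.ofAdd 1)
  obtain ⟨q, rfl⟩ := QuotientGroup.mk_surjective q
  obtain ⟨g, rfl⟩ := QuotientGroup.mk_surjective q
  have h5 := congrFun h4 g
  simp [hq] at h5

private lemma wint_add {Q β A : Type} [Monoid Q] [AddCommMonoid A] (y : β → Q) (a b : Q × β → A)
    (w : List β) : ∀ q, wint y (a + b) w q = wint y a w q + wint y b w q := by
  induction w with
  | nil => simp [wint]
  | cons c w ih =>
    intro q
    simp only [wint, ih, Pi.add_apply]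
    abel

private lemma wint_smul {Q β A : Type} [Monoid Q] [Semiring A] (y : β → Q) (c : A) (a : Q × β → A)
    (w : List β) : ∀ q, wint y (c • a) w q = c • wint y a w q := by
  induction w with
  | nil => simp [wint]
  | cons b w ih =>
    intro q
    simp only [wint, ih, Pi.smul_apply, smul_add]

theorem count (F : Type) [Field F] [Group.FG P] (K : Subgroup P) [K.Normal] [K.FiniteIndex]
    {β T : Type} [Fintype β] [Fintype T] (y : β → P)
    (hy : Subgroup.closure (Set.range y) ⊔ Fr F K = ⊤) (r : T → List β)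
    (hr : ∀ a, ((r a).map y).prod ∈ Fr F K)
    (hsurj : ∀ z : T → F, ∃ ω : (P ⧸ K) × β → F,
      ∀ a, wint (fun b => (y b : P ⧸ K)) ω (r a) 1 = z a) :
    Module.finrank F (homs F K) + K.index + Fintype.card T ≤ K.index * Fintype.card β + 1 := by
  classical
  have : Fintype (P ⧸ K) := Fintype.ofFinite _
  have hmem : ∀ g : P, g * ((g : P ⧸ K).out)⁻¹ ∈ K := fun g => by
    rw [← QuotientGroup.eq_one_iff]
    simp
  have hmk : ∀ (x : K) (g : P), (((x : P) * g : P) : P ⧸ K) = g := fun x g => by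
    rw [QuotientGroup.mk_mul, (QuotientGroup.eq_one_iff _).2 x.2, one_mul]
  let ψ : P → K := fun g => ⟨_, hmem g⟩
  have hψ : ∀ (x : K) g, ψ (x * g) = x * ψ g := fun x g => Subtype.ext (by
    simp [ψ, hmk, mul_assoc])
  let ex : ({q : P ⧸ K // q ≠ 1} → F) →ₗ[F] (P ⧸ K → F) :=
    { toFun := fun u q => if h : q = 1 then 0 else u ⟨q, h⟩
      map_add' := fun a b => funext fun q => by by_cases h : q = 1 <;> simp [h]
      map_smul' := fun r a => funext fun q => by by_cases h : q = 1 <;> simp [h] }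
  let Fm : (homs F K × ({q : P ⧸ K // q ≠ 1} → F)) →ₗ[F] (P → F) :=
    { toFun := fun ω g => ω.1.1 (ψ g) + ex ω.2 g
      map_add' := fun a b => funext fun g => by
        simp
        ring
      map_smul' := fun r a => funext fun g => by simp [mul_add] }
  have hF : ∀ ω (x : K) g, Fm ω (x * g) = ω.1.1 x + Fm ω g := by
    intro ω x g
    simp only [Fm, LinearMap.coe_mk, AddHom.coe_mk, hψ, hmk, ω.1.2 x, add_assoc]
  have hFr : ∀ ω, ∀ x ∈ Fr F K, ∀ g, Fm ω (x * g) = Fm ω g := by
    rintro ω x ⟨hx, h⟩ g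
    rw [hF ω ⟨x, hx⟩, h _ ω.1.2, zero_add]
  let Ψ := (LinearMap.funLeft F F (fun e : (P ⧸ K) × β => e.1.out * y e.2) -
    LinearMap.funLeft F F (fun e : (P ⧸ K) × β => e.1.out)) ∘ₗ Fm
  have hΨ : ∀ ω (g : P) a, Ψ ω ((g : P ⧸ K), a) = Fm ω (g * y a) - Fm ω g := fun ω g a => by
    have h1 : g = ψ g * (g : P ⧸ K).out := by simp [ψ]
    change Fm ω ((g : P ⧸ K).out * y a) - Fm ω (g : P ⧸ K).out = _
    conv_rhs => rw [h1, mul_assoc, hF, hF]
    ring
  have hinj : Function.Injective Ψ := by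
    rw [injective_iff_map_eq_zero]
    intro ω hω
    let Z : Subgroup P :=
      { carrier := {x | ∀ g, Fm ω (g * x) = Fm ω g}
        mul_mem' := fun {a b} ha hb g => by rw [← mul_assoc, hb, ha]
        one_mem' := fun g => by rw [mul_one]
        inv_mem' := fun {a} ha g => by rw [← ha, inv_mul_cancel_right] }
    have a1 : ⊤ ≤ Z := by
      rw [← hy]
      refine sup_le ((Subgroup.closure_le _).2 ?_) fun x hx g => ?_
      · rintro _ ⟨b, rfl⟩ g
        rw [← sub_eq_zero, ← hΨ, hω]
        rfl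
      · rw [← hFr ω _ ((Fr_normal F K).conj_mem x hx g) g, inv_mul_cancel_right]
    have a2 : ∀ g, Fm ω g = Fm ω 1 := fun g => by
      rw [← a1 (Subgroup.mem_top g) 1, one_mul]
    have a3 : ω.1 = 0 := by
      ext x
      have := hF ω x 1
      rw [a2] at this
      simpa using this
    refine Prod.ext a3 (funext fun q => ?_)
    have := a2 q.1.out
    simp only [Fm, a3, LinearMap.coe_mk, AddHom.coe_mk, QuotientGroup.out_eq',
      QuotientGroup.mk_one] at this
    simpa [ex, q.2] using this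
  have hw : ∀ ω (w : List β) (g : P), wint (fun b => (y b : P ⧸ K)) (Ψ ω) w g =
      Fm ω (g * (w.map y).prod) - Fm ω g := fun ω w => by
    induction w with
    | nil => simp [wint]
    | cons b w ih =>
      intro g
      rw [wint, hΨ, ← QuotientGroup.mk_mul, ih, List.map_cons, List.prod_cons, mul_assoc]
      ring
  let Φ : ((P ⧸ K) × β → F) →ₗ[F] (T → F) :=
    { toFun := fun ω a => wint (fun b => (y b : P ⧸ K)) ω (r a) 1
      map_add' := fun a b => funext fun t => wint_add _ a b _ _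
      map_smul' := fun c a => funext fun t => wint_smul _ c a _ _ }
  have h1 : LinearMap.range Ψ ≤ LinearMap.ker Φ := by
    rintro _ ⟨ω, rfl⟩
    refine funext fun a => ?_
    have := hw ω (r a) 1
    rw [one_mul, ← mul_one ((r a).map y).prod, hFr ω _ (hr a), sub_self] at this
    exact this
  have h2 : LinearMap.range Φ = ⊤ := LinearMap.range_eq_top.2 fun z => by
    obtain ⟨ω, hω⟩ := hsurj z
    exact ⟨ω, funext hω⟩
  have h3 := Φ.finrank_range_add_finrank_ker
  have h4 := Submodule.finrank_mono h1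
  rw [LinearMap.finrank_range_of_inj hinj, Module.finrank_prod,
    Module.finrank_fintype_fun_eq_card] at h4
  rw [h2, finrank_top, Module.finrank_fintype_fun_eq_card, Module.finrank_fintype_fun_eq_card,
    Fintype.card_prod, ← Nat.card_eq_fintype_card (α := P ⧸ K), ← Subgroup.index_eq_card] at h3
  have h5 : Fintype.card {x : P ⧸ K // x ≠ 1} + 1 = K.index := by
    rw [Fintype.card_subtype_compl, Fintype.card_subtype_eq, Subgroup.index_eq_card,
      Nat.card_eq_fintype_card]
    have : 0 < Fintype.card (P ⧸ K) := Fintype.card_pos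
    omega
  omega

end Pool.Agent.Lib.MP_34a149_al.PG
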