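import Pool.Agent.Lib.MP_34a149_al.PG.Base

/-!
Cocycles on a finite cover and homomorphisms of the corresponding subgroup.
-/

namespace Pool.Agent.Lib.MP_34a149_al.PG

open Finset

variable {G α ρ : Type} [Group G] [Fintype α] [Fintype ρ] {s : α → G} {c : ρ → G × α →₀ ℤ}

lemma Jmat_row (c : ρ → G × α →₀ ℤ) (H : Subgroup G) [Fintype (G ⧸ H)] (u : (G ⧸ H) × ρ) :
    ∑ v, (Jmat c H u v).natAbs ≤ Lc c := by
  classical
  refine le_trans (sum_le_sum fun v _ => Int.natAbs_sum_le _ _) ?_
  rw [sum_comm]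
  have h1 : ∀ e ∈ (c u.2).support, ∑ v : (G ⧸ H) × α,
      (if e.1⁻¹ • u.1 = v.1 ∧ e.2 = v.2 then c u.2 e else 0).natAbs = (c u.2 e).natAbs := by
    intro e _
    rw [sum_eq_single (e.1⁻¹ • u.1, e.2) (fun v _ hv => ?_) (fun h => absurd (mem_univ _) h)]
    · simp
    · rw [if_neg fun h => hv (Prod.ext h.1.symm h.2.symm), Int.natAbs_zero]
  refine (le_of_eq (sum_congr rfl fun e he => ?_)).trans
    ((single_le_sum (f := fun r => (c r).sum fun _ k => k.natAbs) (fun _ _ => Nat.zero_le _)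
      (mem_univ u.2)).trans (Nat.le_add_left _ _))
  exact h1 e he

lemma Jmat_col (c : ρ → G × α →₀ ℤ) (H : Subgroup G) [Fintype (G ⧸ H)] (v : (G ⧸ H) × α) :
    ∑ u, (Jmat c H u v).natAbs ≤ Lc c := by
  classical
  refine le_trans (sum_le_sum fun u _ => Int.natAbs_sum_le _ _) ?_
  rw [Fintype.sum_prod_type_right]
  refine le_trans (sum_le_sum fun r _ => ?_) (Nat.le_add_left _ _)
  dsimp only
  rw [sum_comm]
  refine sum_le_sum fun e _ => ?_
  rw [sum_eq_single (e.1 • v.1) (fun q _ hq => ?_) (fun h => absurd (mem_univ _) h)]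
  · split_ifs <;> simp
  · rw [if_neg fun h => hq (by rw [← h.1, smul_inv_smul]), Int.natAbs_zero]

namespace Cover

/-- the vertex of the cover below a group element -/
def pi (H : Subgroup G) (g : G) : G ⧸ H := (g⁻¹ : G)

/-- the part of a group element in the subgroup -/
noncomputable def psi (H : Subgroup G) (g : G) : H := ⟨g * (pi H g).out, by
  obtain ⟨h, e⟩ := QuotientGroup.mk_out_eq_mul H g⁻¹
  rw [pi, e, mul_inv_cancel_left]
  exact h.2⟩

lemma pi_mul (H : Subgroup G) (x : H) (g : G) : pi H (x * g) = pi H g := by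
  rw [pi, pi, QuotientGroup.eq]
  simp

lemma pi_out (H : Subgroup G) (q : G ⧸ H) : pi H q.out⁻¹ = q := by
  rw [pi, inv_inv, QuotientGroup.out_eq']

lemma smul_pi (H : Subgroup G) (g x : G) : x⁻¹ • pi H g = pi H (g * x) := by
  rw [pi, pi, mul_inv_rev]
  rfl

lemma psi_mul (H : Subgroup G) (x : H) (g : G) : psi H (x * g) = x * psi H g :=
  Subtype.ext (by simp [psi, pi_mul, mul_assoc])

lemma psi_spec (H : Subgroup G) (g : G) : psi H g * (pi H g).out⁻¹ = g := by simp [psi]

lemma const_of {A : Type} (hs : Subgroup.closure (Set.range s) = ⊤) {F : G → A}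
    (h : ∀ g a, F (g * s a) = F g) (g : G) : F g = F 1 := by
  have key : ∀ x ∈ Subgroup.closure (Set.range s), ∀ g, F (g * x) = F g := by
    intro x hx
    induction hx using Subgroup.closure_induction with
    | mem x hx =>
      obtain ⟨a, rfl⟩ := hx
      exact fun g => h g a
    | one => exact fun g => by rw [mul_one]
    | mul x y _ _ hx hy => exact fun g => by rw [← mul_assoc, hy, hx]
    | inv x _ hx => exact fun g => by rw [← hx, inv_mul_cancel_right]
  simpa using key g (by rw [hs]; trivial) 1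

variable {A : Type} [CommRing A]

lemma mulVec_pi (c : ρ → G × α →₀ ℤ) (H : Subgroup G) [Fintype (G ⧸ H)] (v : (G ⧸ H) × α → A)
    (g : G) (r : ρ) : ((Jmat c H).map (Int.cast : ℤ → A)).mulVec v (pi H g, r) =
      (c r).sum fun e k => (k : A) * v (pi H (g * e.1), e.2) := by
  classical
  simp only [Matrix.mulVec, dotProduct, Matrix.map_apply, Jmat, Finsupp.sum, Int.cast_sum, sum_mul,
    smul_pi]
  rw [sum_comm]
  refine sum_congr rfl fun e _ => ?_
  rw [sum_eq_single (pi H (g * e.1), e.2) (fun w _ hw => ?_) (fun h => absurd (mem_univ _) h)]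
  · simp
  · rw [if_neg fun h => hw (Prod.ext h.1.symm h.2.symm), Int.cast_zero, zero_mul]

/-- the potential of a homomorphism and a vertex function -/
noncomputable def Fm (H : Subgroup G) (ω : homs A H × (G ⧸ H → A)) (g : G) : A :=
  ω.1.1 (psi H g) + ω.2 (pi H g)

lemma Fm_mul (H : Subgroup G) (ω : homs A H × (G ⧸ H → A)) (x : H) (g : G) :
    Fm H ω (x * g) = ω.1.1 x + Fm H ω g := by
  rw [Fm, Fm, psi_mul, pi_mul, ω.1.2, add_assoc]

/-- its coboundary on the cover -/
noncomputable def Psi (s : α → G) (H : Subgroup G) :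
    (homs A H × (G ⧸ H → A)) →ₗ[A] ((G ⧸ H) × α → A) where
  toFun ω e := Fm H ω (e.1.out⁻¹ * s e.2) - Fm H ω e.1.out⁻¹
  map_add' a b := funext fun e => by
    simp only [Fm, Prod.fst_add, Prod.snd_add, Submodule.coe_add, Pi.add_apply]
    ring
  map_smul' r a := funext fun e => by
    simp only [Fm, Prod.smul_fst, Prod.smul_snd, Submodule.coe_smul, Pi.smul_apply, smul_eq_mul,
      RingHom.id_apply]
    ring

lemma Psi_pi (s : α → G) (H : Subgroup G) (ω : homs A H × (G ⧸ H → A)) (g : G) (a : α) :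
    Psi s H ω (pi H g, a) = Fm H ω (g * s a) - Fm H ω g := by
  change Fm H ω ((pi H g).out⁻¹ * s a) - Fm H ω (pi H g).out⁻¹ = _
  conv_rhs => rw [← psi_spec H g, mul_assoc, Fm_mul, Fm_mul]
  ring

lemma Psi_mem (h : IsPres s c) (H : Subgroup G) [Fintype (G ⧸ H)] (ω : homs A H × (G ⧸ H → A)) :
    Psi s H ω ∈ LinearMap.ker ((Jmat c H).map (Int.cast : ℤ → A)).mulVecLin := by
  rw [LinearMap.mem_ker, Matrix.mulVecLin_apply]
  funext u
  obtain ⟨q, r⟩ := u
  rw [← pi_out H q, mulVec_pi]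
  simp only [Psi_pi, ← zsmul_eq_mul]
  exact h.cycle A _ r _

/-- the comparison map -/
noncomputable def Th (h : IsPres s c) (H : Subgroup G) [Fintype (G ⧸ H)] :
    (homs A H × (G ⧸ H → A)) →ₗ[A]
      (LinearMap.ker ((Jmat c H).map (Int.cast : ℤ → A)).mulVecLin × A) :=
  ((Psi s H).codRestrict _ (Psi_mem h H)).prod (LinearMap.proj (pi H 1) ∘ₗ LinearMap.snd _ _ _)

lemma Th_inj (h : IsPres s c) (H : Subgroup G) [Fintype (G ⧸ H)] :
    Function.Injective (Th (A := A) h H) := by
  rw [injective_iff_map_eq_zero]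
  intro ω hω
  have a0 : Psi s H ω = 0 := congrArg (fun z => z.1.1) hω
  have a1 : ω.2 (pi H 1) = 0 := congrArg Prod.snd hω
  have a2 := const_of h.gen (F := Fm H ω) fun g a => by
    rw [← sub_eq_zero, ← Psi_pi, a0, Pi.zero_apply]
  have a3 : ω.1 = 0 := Subtype.ext (funext fun x => by
    have := Fm_mul H ω x 1
    rw [a2] at this
    simpa using this)
  refine Prod.ext a3 (funext fun q => ?_)
  have := a2 q.out⁻¹
  rw [Fm, Fm, a3, pi_out, a1] at this
  simpa using this

lemma Th_surj (h : IsPres s c) (H : Subgroup G) [Fintype (G ⧸ H)] :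
    Function.Surjective (Th (A := ℝ) h H) := by
  rintro ⟨⟨v, hv⟩, t⟩
  rw [LinearMap.mem_ker, Matrix.mulVecLin_apply] at hv
  obtain ⟨f, hf⟩ := h.fill (fun e => v (pi H e.1, e.2)) fun r x => by
    rw [← mulVec_pi c H v x r, hv, Pi.zero_apply]
  have b0 : ∀ g a, v (pi H g, a) = f (g * s a) - f g := fun g a => congrFun hf (g, a)
  have b1 : ∀ (x : H) g, f (x * g) - f g = f x - f 1 := fun x g => by
    have := const_of h.gen (F := fun g => f (x * g) - f g) (fun g a => by
      have c1 := b0 (x * g) a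
      rw [pi_mul, b0, mul_assoc] at c1
      linarith) g
    simpa using this
  let l : homs ℝ H := ⟨fun x => f x - f 1, fun x y => by
    have := b1 x y
    simp only [Subgroup.coe_mul]
    linarith⟩
  have b2 : ∀ g, Fm H (l, fun q => f q.out⁻¹ + (t - f (pi H 1).out⁻¹)) g =
      f g + (t - f (pi H 1).out⁻¹) := fun g => by
    have := b1 (psi H g) (pi H g).out⁻¹
    rw [psi_spec] at this
    simp only [Fm, l]
    linarith
  refine ⟨(l, fun q => f q.out⁻¹ + (t - f (pi H 1).out⁻¹)),
    Prod.ext (Subtype.ext (funext fun e => ?_)) ?_⟩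
  · obtain ⟨q, a⟩ := e
    change Psi s H _ (q, a) = v (q, a)
    rw [← pi_out H q, Psi_pi, b2, b2, b0]
    ring
  · change f _ + _ = t
    ring

end Cover

theorem card_ker_ge (h : IsPres s c) (H : Subgroup G) [Fintype (G ⧸ H)] (m : ℕ) [NeZero m] :
    m ^ H.index * Nat.card (homs (ZMod m) H) ≤ m * Nat.card {v : (G ⧸ H) × α → ZMod m //
      ((Jmat c H).map (Int.cast : ℤ → ZMod m)).mulVec v = 0} := by
  have h1 := Nat.card_le_card_of_injective _ (Cover.Th_inj (A := ZMod m) h H)
  rw [Nat.card_prod, Nat.card_prod, Nat.card_fun, Nat.card_zmod, mul_comm, mul_comm _ m] at h1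
  exact h1

theorem kerDim_Jmat (h : IsPres s c) (H : Subgroup G) [Fintype (G ⧸ H)] [Group.FG H] :
    kerDim (Jmat c H) + 1 = Module.finrank ℝ (homs ℝ H) + H.index := by
  have h1 := (LinearEquiv.ofBijective _ ⟨Cover.Th_inj h H, Cover.Th_surj h H⟩).finrank_eq
  rw [Module.finrank_prod, Module.finrank_prod, Module.finrank_fintype_fun_eq_card,
    Module.finrank_self] at h1
  rw [kerDim, ← h1, Subgroup.index_eq_card, Nat.card_eq_fintype_card]

end Pool.Agent.Lib.MP_34a149_al.PG
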