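import Pool.Agent.Lib.MP_34a149_al.PG.Base

/-!
The kernel of an integer matrix modulo an integer.
-/

namespace Pool.Agent.Lib.MP_34a149_al.PG

open Finset

lemma ik_det_le {κ : Type} [Fintype κ] [DecidableEq κ] (B : Matrix κ κ ℤ) (L : ℕ)
    (h : ∀ i, ∑ j, (B i j).natAbs ≤ L) : B.det.natAbs ≤ L ^ Fintype.card κ := by
  calc B.det.natAbs ≤ ∑ σ : Equiv.Perm κ, ∏ i, (B i (σ i)).natAbs := by
        rw [← Matrix.det_transpose, Matrix.det_apply']
        refine (Int.natAbs_sum_le _ _).trans (le_of_eq (Finset.sum_congr rfl fun σ _ => ?_))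
        rw [Int.natAbs_mul, Int.cast_id, Int.units_natAbs, one_mul]
        exact map_prod Int.natAbsHom _ _
    _ = ∑ f ∈ univ.image fun σ : Equiv.Perm κ => (σ : κ → κ), ∏ i, (B i (f i)).natAbs :=
        (Finset.sum_image (f := fun f : κ → κ => ∏ i, (B i (f i)).natAbs)
          fun _ _ _ _ e => DFunLike.coe_injective e).symm
    _ ≤ ∑ f : κ → κ, ∏ i, (B i (f i)).natAbs := Finset.sum_le_sum_of_subset (subset_univ _)
    _ = ∏ i, ∑ j, (B i j).natAbs := by rw [Finset.prod_univ_sum, Fintype.piFinset_univ]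
    _ ≤ L ^ Fintype.card κ := Finset.prod_le_pow_card _ _ _ fun i _ => h i

lemma ik_map_mulVec {ι κ : Type} [Fintype κ] (B : Matrix ι κ ℤ) (m : ℕ) (v : κ → ℤ) (i : ι) :
    (B.map (Int.cast : ℤ → ZMod m)).mulVec (fun j => (v j : ZMod m)) i =
      ((B.mulVec v i : ℤ) : ZMod m) := by
  simp [Matrix.mulVec, dotProduct]

lemma ik_card_sq {κ : Type} [Fintype κ] [DecidableEq κ] (B : Matrix κ κ ℤ) (hB : B.det ≠ 0)
    (m : ℕ) [NeZero m] :
    Nat.card (B.map (Int.cast : ℤ → ZMod m)).mulVecLin.toAddMonoidHom.ker ≤ B.det.natAbs := by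
  let π : (κ → ℤ) →+ (κ → ZMod m) := (Int.castAddHom (ZMod m)).compLeft κ
  have hπ : Function.Surjective π := fun v =>
    ⟨fun j => (v j).cast, funext fun j => ZMod.intCast_zmod_cast (v j)⟩
  have hinj : Function.Injective B.mulVecLin := by
    rw [injective_iff_map_eq_zero]
    exact fun v hv => Matrix.eq_zero_of_mulVec_eq_zero hB hv
  have h1 := Submodule.natAbs_det_equiv (LinearMap.range B.mulVecLin)
    (LinearEquiv.ofInjective _ hinj)
  have h2 : (LinearMap.range B.mulVecLin).subtype ∘ₗ AddMonoidHom.toIntLinearMap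
      ((LinearEquiv.ofInjective _ hinj : (κ → ℤ) ≃ₗ[ℤ] LinearMap.range B.mulVecLin) :
        (κ → ℤ) →+ LinearMap.range B.mulVecLin) = Matrix.toLin' B := LinearMap.ext fun _ => rfl
  rw [h2, LinearMap.det_toLin'] at h1
  have h3 : (B.map (Int.cast : ℤ → ZMod m)).mulVecLin.toAddMonoidHom.range =
      (LinearMap.range B.mulVecLin).toAddSubgroup.map π := by
    ext w
    constructor
    · rintro ⟨v, rfl⟩
      obtain ⟨u, rfl⟩ := hπ v
      exact ⟨B.mulVec u, ⟨u, rfl⟩, funext fun i => (ik_map_mulVec B m u i).symm⟩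
    · rintro ⟨_, ⟨u, rfl⟩, rfl⟩
      exact ⟨π u, funext fun i => ik_map_mulVec B m u i⟩
  rw [← AddSubgroup.index_range, h3]
  refine Nat.le_of_dvd (Int.natAbs_pos.2 hB) ?_
  rw [h1]
  exact AddSubgroup.index_map_dvd _ hπ

lemma ik_rows {ι κ : Type} [Fintype ι] [Fintype κ] [DecidableEq κ] (J : Matrix ι κ ℤ) :
    ∃ (e : κ → ι ⊕ κ) (T : Finset κ), T.card = kerDim J ∧ (∀ k, k ∉ T → ∃ i, e k = Sum.inl i) ∧
      ((Matrix.fromRows J (1 : Matrix κ κ ℤ)).submatrix e id).det ≠ 0 := by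
  classical
  let w : ι ⊕ κ → κ → ℝ := fun i j => ((Matrix.fromRows J (1 : Matrix κ κ ℤ) i j : ℤ) : ℝ)
  obtain ⟨b1, a1, -, a2, a3⟩ := exists_linearIndepOn_extension (linearIndepOn_empty ℝ w)
    (Set.empty_subset (Set.range Sum.inl))
  obtain ⟨b2, -, c1, c2, c3⟩ := exists_linearIndepOn_extension a3 (Set.subset_univ b1)
  have d1 : Submodule.span ℝ (Set.range fun i : b1 => w i) =
      Submodule.span ℝ (Set.range (J.map (Int.cast : ℤ → ℝ)).row) := by
    refine le_antisymm (Submodule.span_mono ?_) (Submodule.span_le.2 ?_)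
    · rintro _ ⟨⟨_, hi⟩, rfl⟩
      obtain ⟨i, rfl⟩ := a1 hi
      exact ⟨i, rfl⟩
    · rintro _ ⟨i, rfl⟩
      rw [← Set.image_eq_range]
      exact a2 ⟨Sum.inl i, ⟨i, rfl⟩, rfl⟩
  have d2 : Submodule.span ℝ (Set.range fun i : b2 => w i) = ⊤ := by
    rw [eq_top_iff, ← (Pi.basisFun ℝ κ).span_eq, Submodule.span_le, ← Set.image_eq_range]
    rintro _ ⟨j, rfl⟩
    refine c2 ⟨Sum.inr j, trivial, funext fun l => ?_⟩
    simp [w, Matrix.one_apply, Pi.single_apply, eq_comm]
  have d3 := finrank_span_eq_card a3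
  have d4 := finrank_span_eq_card c3
  rw [d1, ← Matrix.rank_eq_finrank_span_row] at d3
  rw [d2, finrank_top, Module.finrank_fintype_fun_eq_card] at d4
  have d5 := (J.map (Int.cast : ℤ → ℝ)).mulVecLin.finrank_range_add_finrank_ker
  rw [Module.finrank_fintype_fun_eq_card] at d5
  let e := Fintype.equivOfCardEq d4
  refine ⟨fun k => e k, univ.filter fun k => (e k : ι ⊕ κ) ∉ b1, ?_, fun k hk => ?_, ?_⟩
  · have f1 : (univ.filter fun k => (e k : ι ⊕ κ) ∈ b1).card = Fintype.card b1 := by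
      rw [← Finset.card_univ]
      refine Finset.card_bij (fun k hk => ⟨e k, (mem_filter.1 hk).2⟩) (fun _ _ => mem_univ _)
        (fun k _ k' _ h => e.injective (Subtype.ext (congrArg Subtype.val h :))) fun i _ =>
          ⟨e.symm ⟨i, c1 i.2⟩, by simp, by simp⟩
    have f2 := Finset.card_filter_add_card_filter_not (s := univ)
      fun k => (e k : ι ⊕ κ) ∈ b1
    rw [f1, Finset.card_univ, ← d3] at f2
    unfold kerDim
    unfold Matrix.rank at f2
    omega
  · obtain ⟨i, hi⟩ := a1 (show (e k : ι ⊕ κ) ∈ b1 by simpa using hk)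
    exact ⟨i, hi.symm⟩
  · have g1 : LinearIndependent ℝ (((Matrix.fromRows J (1 : Matrix κ κ ℤ)).submatrix
        (fun k => (e k : ι ⊕ κ)) id).map (Int.cast : ℤ → ℝ)).row := c3.comp e e.injective
    have g2 := ((Matrix.isUnit_iff_isUnit_det _).1
      (Matrix.linearIndependent_rows_iff_isUnit.1 g1)).ne_zero
    intro h
    apply g2
    rw [← Int.cast_det, h, Int.cast_zero]

theorem card_ker_le {ι κ : Type} [Fintype ι] [Fintype κ] (J : Matrix ι κ ℤ) (L : ℕ) (hL : 1 ≤ L)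
    (hrow : ∀ i, ∑ j, (J i j).natAbs ≤ L) (m : ℕ) [NeZero m] :
    Nat.card {v : κ → ZMod m // (J.map (Int.cast : ℤ → ZMod m)).mulVec v = 0} ≤
      m ^ kerDim J * L ^ Fintype.card κ := by
  classical
  obtain ⟨e, T, h1, h2, h3⟩ := ik_rows J
  set B := (Matrix.fromRows J (1 : Matrix κ κ ℤ)).submatrix e id with hB
  have h4 : B.det.natAbs ≤ L ^ Fintype.card κ := ik_det_le B L fun k => by
    simp only [hB, Matrix.submatrix_apply, id]
    rcases e k with i | i
    · exact hrow i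
    · simpa [Matrix.one_apply, apply_ite Int.natAbs] using hL
  let A := (J.map (Int.cast : ℤ → ZMod m)).mulVecLin.toAddMonoidHom.ker
  let φ : A →+ (T → ZMod m) := AddMonoidHom.mk'
    (fun v k => (B.map (Int.cast : ℤ → ZMod m)).mulVec v.1 k) fun v v' => by
      funext k
      simp [Matrix.mulVec_add]
  have h5 : Nat.card φ.range ≤ m ^ kerDim J := by
    refine (Nat.card_le_card_of_injective _ Subtype.val_injective).trans ?_
    rw [Nat.card_fun, Nat.card_zmod, Nat.card_eq_fintype_card, Fintype.card_coe, h1]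
  have h6 : Nat.card φ.ker ≤
      Nat.card (B.map (Int.cast : ℤ → ZMod m)).mulVecLin.toAddMonoidHom.ker := by
    refine Nat.card_le_card_of_injective (fun v => ⟨v.1.1, funext fun k => ?_⟩)
      fun v v' h => Subtype.ext (Subtype.ext (congrArg Subtype.val h :))
    by_cases hk : k ∈ T
    · exact congrFun v.2 ⟨k, hk⟩
    · obtain ⟨i, hi⟩ := h2 k hk
      have h7 : (J.map (Int.cast : ℤ → ZMod m)).mulVec v.1.1 i = 0 := congrFun v.1.2 i
      simpa [hB, Matrix.mulVec, dotProduct, hi] using h7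
  show Nat.card A ≤ _
  rw [← φ.ker.card_mul_index, AddSubgroup.index_ker, mul_comm]
  exact Nat.mul_le_mul h5 (h6.trans ((ik_card_sq B h3 m).trans h4))

end Pool.Agent.Lib.MP_34a149_al.PG
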