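import Pool.Agent.Lib.MP_34a149_al.PG.Base

/-!
A determinant of Wiebe type and the top degree part of a Fox matrix.
-/

namespace Pool.Agent.Lib.MP_34a149_al.PG

open Finset

section Wiebe
open MvPolynomial Matrix

variable {T K : Type} [Fintype T] [DecidableEq T] [Field K]

private lemma wb_row (n : ℕ) (t : T →₀ ℕ) (ht : ∀ a, t a = n) (u : T → K)
    (M : Matrix T T (MvPolynomial T K)) (a : T)
    (hM : ∀ i, (M *ᵥ X) i = if i = a then 0 else C (u i) * X i ^ (n + 1)) :
    coeff t M.det = 0 := by
  have h1 : (M.adjugate *ᵥ (M *ᵥ X)) a = M.det * X a := by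
    rw [Matrix.mulVec_mulVec, Matrix.adjugate_mul, Matrix.smul_mulVec, Matrix.one_mulVec]
    rfl
  rw [← coeff_mul_X t a, ← h1]
  show coeff _ (∑ i, M.adjugate a i * (M *ᵥ X) i) = 0
  rw [coeff_sum]
  refine Finset.sum_eq_zero fun i _ => ?_
  rw [hM i]
  split_ifs with e
  · simp
  · rw [← mul_assoc, X_pow_eq_monomial, coeff_mul_monomial', if_neg]
    intro k
    have := k i
    simp [ht, Ne.symm e] at this

private lemma wb_coeff (n : ℕ) (t : T →₀ ℕ) (ht : ∀ a, t a = n) (u : T → K)
    (A : Matrix T T (MvPolynomial T K)) (h : ∀ a, (A *ᵥ X) a = C (u a) * X a ^ (n + 1)) :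
    coeff t A.det = ∏ a, u a := by
  set D : Matrix T T (MvPolynomial T K) := diagonal fun a => C (u a) * X a ^ n with hD
  have hD' : ∀ a, (D *ᵥ X) a = C (u a) * X a ^ (n + 1) := fun a => by
    rw [hD, mulVec_diagonal, mul_assoc, pow_succ]
  have key : ∀ S : Finset T,
      coeff t (Matrix.of fun i => if i ∈ S then D i else A i).det = coeff t A.det := by
    intro S
    induction S using Finset.induction_on with
    | empty => simp only [Finset.notMem_empty, if_false]; rfl
    | insert a S ha ih =>
      set B : Matrix T T (MvPolynomial T K) := Matrix.of fun i => if i ∈ S then D i else A i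
        with hB
      have e1 : (Matrix.of fun i => if i ∈ insert a S then D i else A i) =
          B.updateRow a (B a + (D a - A a)) := by
        ext1 i j
        by_cases e : i = a
        · subst e
          simp [hB, ha]
        · simp [hB, e]
      rw [e1, det_updateRow_add, updateRow_eq_self, coeff_add, ih,
        wb_row n t ht u (B.updateRow a (D a - A a)) a fun i => ?_, add_zero]
      by_cases e : i = a
      · subst e
        have : ((B.updateRow i (D i - A i)) *ᵥ X) i = (D *ᵥ X) i - (A *ᵥ X) i := by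
          simp only [mulVec, updateRow_self, sub_dotProduct]
        rw [this, hD', h, sub_self, if_pos rfl]
      · have : ((B.updateRow a (D a - A a)) *ᵥ X) i =
            if i ∈ S then (D *ᵥ X) i else (A *ᵥ X) i := by
          simp only [mulVec, updateRow_ne e, hB]
          split_ifs with k <;> simp [k]
        rw [this, hD', h, ite_self, if_neg e]
  rw [← key univ]
  simp only [Finset.mem_univ, if_true]
  have e2 : D.det = monomial t (∏ a, u a) := by
    rw [hD, det_diagonal, Finset.prod_mul_distrib, ← map_prod, monomial_eq,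
      Finsupp.prod_fintype _ _ (by simp)]
    simp only [ht]
  exact (congrArg (coeff t) e2).trans (by simp)

end Wiebe

theorem wiebe {T K : Type} [Fintype T] [DecidableEq T] [Field K] [Fintype K]
    (A : Matrix T T (MvPolynomial T K)) (hA : ∀ a b, (A a b).IsHomogeneous (Fintype.card K - 1))
    (u : T → K) (hu : ∀ a, u a ≠ 0)
    (h : ∀ a, ∑ b, A a b * MvPolynomial.X b =
      MvPolynomial.C (u a) * MvPolynomial.X a ^ Fintype.card K) :
    ∃ φ : T → K, (A.map (MvPolynomial.eval φ)).det ≠ 0 := by
  have hq : Fintype.card K - 1 + 1 = Fintype.card K := Nat.sub_add_cancel Fintype.card_pos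
  set t : T →₀ ℕ := Finsupp.equivFunOnFinite.symm fun _ => Fintype.card K - 1 with ht
  have ht' : ∀ a, t a = Fintype.card K - 1 := fun a => rfl
  have h1 : MvPolynomial.coeff t A.det ≠ 0 := by
    rw [wb_coeff _ t ht' u A fun a => by rw [hq]; exact h a]
    exact Finset.prod_ne_zero_iff.2 fun a _ => hu a
  have h2 : A.det.IsHomogeneous (∑ _a : T, (Fintype.card K - 1)) := by
    rw [Matrix.det_apply']
    refine MvPolynomial.IsHomogeneous.sum _ _ _ fun σ _ => ?_
    have := (MvPolynomial.isHomogeneous_C T ((Equiv.Perm.sign σ : ℤ) : K)).mul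
      (MvPolynomial.IsHomogeneous.prod univ (fun i => A (σ i) i) (fun _ => Fintype.card K - 1)
        fun i _ => hA _ _)
    simpa using this
  have h3 : A.det.totalDegree = t.degree := by
    rw [h2.totalDegree fun k => h1 (by simp [k]), Finsupp.degree_eq_sum]
    rfl
  obtain ⟨φ, -, hφ⟩ := MvPolynomial.combinatorial_nullstellensatz_exists_eval_nonzero A.det t h1 h3
    (fun _ => univ) fun i => by rw [ht', Finset.card_univ]; omega
  exact ⟨φ, by rwa [RingHom.map_det] at hφ⟩

section Fox
open Polynomial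

private lemma wfox_map {β R S : Type} [CommRing R] [CommRing S] (f : R →+* S) (ξ v : β → R)
    (w : List β) : f (wfox ξ v w) = wfox (fun b => f (ξ b)) (fun b => f (v b)) w := by
  induction w with
  | nil => simp [wfox]
  | cons b w ih => simp [wfox, ih]

private lemma wfox_sum {β R T : Type} [CommRing R] [Fintype T] (ξ : β → R) (c : T → R)
    (d : T → β → R) (w : List β) :
    wfox ξ (fun b => ∑ a, c a * d a b) w = ∑ a, c a * wfox ξ (d a) w := by
  induction w with
  | nil => simp [wfox]
  | cons b w ih =>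
    simp only [wfox, ih, Finset.mul_sum, ← Finset.sum_add_distrib]
    exact Finset.sum_congr rfl fun a _ => by ring

private lemma wfox_prod {β R : Type} [CommRing R] (ξ : β → R) (w : List β) :
    wfox ξ (fun b => ξ b - 1) w = (w.map ξ).prod - 1 := by
  induction w with
  | nil => simp [wfox]
  | cons b w ih =>
    simp only [wfox, ih, List.map_cons, List.prod_cons]
    ring

private lemma wfox_hom {β T K : Type} [Field K] (y : β → MvPolynomial T K)
    (hy : ∀ b, (y b).IsHomogeneous 1) (c : β → K) (w : List β) (j : ℕ) :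
    ((wfox (fun b => 1 + C (y b) * X) (fun b => C (MvPolynomial.C (c b))) w).coeff
      j).IsHomogeneous j := by
  induction w generalizing j with
  | nil => simpa [wfox] using MvPolynomial.isHomogeneous_zero T K j
  | cons b w ih =>
    simp only [wfox, add_mul, one_mul, coeff_add, mul_assoc, coeff_C_mul]
    cases j with
    | zero =>
      rw [coeff_C_zero, coeff_X_mul_zero, mul_zero, add_zero]
      exact (MvPolynomial.isHomogeneous_C T _).add (ih 0)
    | succ j =>
      rw [coeff_C_succ, zero_add, coeff_X_mul]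
      exact (ih _).add (add_comm 1 j ▸ (hy b).mul (ih j))

private lemma prod_count {β T R : Type} [CommMonoid R] [DecidableEq β] [Fintype T] (e : T → β)
    (he : Function.Injective e) (ξ : β → R) (hξ : ∀ b, b ∉ Set.range e → ξ b = 1) (w : List β) :
    (w.map ξ).prod = ∏ a, ξ (e a) ^ w.count (e a) := by
  classical
  induction w with
  | nil => simp
  | cons b w ih =>
    simp only [List.map_cons, List.prod_cons, ih, List.count_cons, pow_add,
      Finset.prod_mul_distrib, beq_iff_eq]
    rw [mul_comm]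
    congr 1
    by_cases hb : b ∈ Set.range e
    · obtain ⟨a, rfl⟩ := hb
      simp [he.eq_iff, pow_ite]
    · rw [hξ b hb]
      exact (Finset.prod_eq_one fun a _ => by rw [if_neg fun k => hb ⟨a, k.symm⟩, pow_zero]).symm

private lemma coeff_one_prod {R T : Type} [CommRing R] (s : Finset T) (c : T → R) (m : T → ℕ) :
    (∏ a ∈ s, (1 + C (c a) * X) ^ m a).coeff 1 = ∑ a ∈ s, (m a : R) * c a := by
  classical
  have h1 : ∀ (f g : R[X]) (x y : R), f.coeff 0 = 1 ∧ f.coeff 1 = x → g.coeff 0 = 1 ∧ g.coeff 1 = y →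
      (f * g).coeff 0 = 1 ∧ (f * g).coeff 1 = x + y := fun f g x y hf hg => by
    rw [mul_coeff_zero, mul_coeff_one, hf.1, hf.2, hg.1, hg.2]
    exact ⟨one_mul _, by ring⟩
  have h2 : ∀ (x : R) (n : ℕ), ((1 + C x * X) ^ n).coeff 0 = 1 ∧
      ((1 + C x * X) ^ n).coeff 1 = n * x := fun x n => by
    induction n with
    | zero => simp [coeff_one]
    | succ n ih =>
      rw [pow_succ, Nat.cast_succ, add_mul, one_mul]
      exact h1 _ _ _ _ ih (by simp [coeff_one])
  refine And.right (a := (∏ a ∈ s, (1 + C (c a) * X) ^ m a).coeff 0 = 1) ?_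
  induction s using Finset.induction_on with
  | empty => simp [coeff_one]
  | insert a s ha ih =>
    rw [Finset.prod_insert ha, Finset.sum_insert ha]
    exact h1 _ _ _ _ (h2 _ _) ih

private lemma coeff_q_prod (p k : ℕ) [Fact p.Prime] {R T : Type} [CommRing R] [CharP R p]
    [Fintype T] (c : T → R) (m : T → ℕ) :
    (∏ a, (1 + C (c a) * X) ^ (p ^ k * m a)).coeff (p ^ k) = ∑ a, (m a : R) * c a ^ p ^ k := by
  have h1 : ∏ a, (1 + C (c a) * X) ^ (p ^ k * m a) =
      expand R (p ^ k) (∏ a, (1 + C (c a ^ p ^ k) * X) ^ m a) := by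
    rw [map_prod]
    refine Finset.prod_congr rfl fun a _ => ?_
    rw [pow_mul, add_pow_char_pow, map_pow, map_add, map_mul, expand_C, expand_X, map_one, one_pow,
      mul_pow, map_pow]
  have := coeff_expand_mul' (pow_pos (Fact.out : p.Prime).pos k)
    (∏ a, (1 + C (c a ^ p ^ k) * X) ^ m a) 1
  rw [mul_one] at this
  rw [h1, this, coeff_one_prod]

end Fox

theorem poly_fox (p k : ℕ) [Fact p.Prime] (hk : 0 < k) {K β T : Type} [Field K] [Fintype K]
    [CharP K p] (hK : Fintype.card K = p ^ k) [DecidableEq β] [Fintype T] [DecidableEq T]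
    (e : T → β) (he : Function.Injective e) (N : T → ℕ)
    (hN : ∀ a, p ^ k ∣ N a ∧ ¬ p ^ (k + 1) ∣ N a) (r : T → List β)
    (hr : ∀ a b, (((r a).count (e b) : ℕ) : ZMod (p ^ (k + 1))) =
      if b = a then (N a : ZMod (p ^ (k + 1))) else 0) :
    ∃ φ : β → K, (∀ b, b ∉ Set.range e → φ b = 0) ∧ ∀ z : T → K, ∃ v : β → K, ∀ a,
      (wfox (fun b => 1 + Polynomial.C (φ b) * Polynomial.X) (fun b => Polynomial.C (v b))
        (r a)).coeff (p ^ k - 1) = z a := by
  classical
  have hp : p.Prime := Fact.out
  have hq : p ^ k - 1 + 1 = p ^ k := Nat.sub_add_cancel (pow_pos hp.pos k)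
  set y : β → MvPolynomial T K := Function.extend e MvPolynomial.X 0 with hy
  have y1 : ∀ a, y (e a) = MvPolynomial.X a := fun a => he.extend_apply _ _ a
  have y0 : ∀ b, b ∉ Set.range e → y b = 0 := fun b hb => Function.extend_apply' _ _ b hb
  have yh : ∀ b, (y b).IsHomogeneous 1 := fun b => by
    by_cases hb : b ∈ Set.range e
    · obtain ⟨a, rfl⟩ := hb
      rw [y1]
      exact MvPolynomial.isHomogeneous_X K a
    · rw [y0 b hb]
      exact MvPolynomial.isHomogeneous_zero T K 1
  set ξ : β → Polynomial (MvPolynomial T K) := fun b => 1 + Polynomial.C (y b) * Polynomial.X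
    with hξ
  set δ : T → β → K := fun a b => if b = e a then 1 else 0 with hδ
  set A : Matrix T T (MvPolynomial T K) := Matrix.of fun a b =>
    (wfox ξ (fun x => Polynomial.C (MvPolynomial.C (δ b x))) (r a)).coeff (p ^ k - 1) with hA
  -- the exponents
  have hm : ∀ a b, ∃ m : ℕ, (r a).count (e b) = p ^ k * m ∧ (p ∣ m ↔ b ≠ a) := fun a b => by
    have h1 := hr a b
    by_cases hb : b = a
    · rw [if_pos hb, ZMod.natCast_eq_natCast_iff] at h1
      obtain ⟨m, hm⟩ := ((h1.of_dvd (pow_dvd_pow p k.le_succ)).dvd_iff dvd_rfl).2 (hN a).1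
      refine ⟨m, hm, fun k1 => absurd ((h1.dvd_iff dvd_rfl).1 ?_) (hN a).2, fun k1 => absurd hb k1⟩
      rw [hm, pow_succ]
      exact mul_dvd_mul_left _ k1
    · rw [if_neg hb, ZMod.natCast_eq_zero_iff] at h1
      obtain ⟨m, hm⟩ := h1
      exact ⟨p * m, by rw [hm, pow_succ, mul_assoc], fun _ => hb, fun _ => dvd_mul_right p m⟩
  choose m hm1 hm2 using hm
  have hs : ∀ {S : Type} [CommRing S] (f : K →+* S) (g : β → S),
      (∀ b, b ∉ Set.range e → g b = 0) → g = fun b => ∑ a, g (e a) * f (δ a b) := by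
    intro S _ f g hg
    funext b
    by_cases hb : b ∈ Set.range e
    · obtain ⟨a, rfl⟩ := hb
      rw [Finset.sum_eq_single a]
      · simp [hδ]
      · intro a' _ k1
        simp [hδ, he.eq_iff, Ne.symm k1]
      · simp
    · rw [hg b hb]
      refine (Finset.sum_eq_zero fun a _ => ?_).symm
      have : b ≠ e a := fun k1 => hb ⟨a, k1.symm⟩
      simp [hδ, this]
  obtain ⟨φ, hφ⟩ := wiebe A (fun a b => hK ▸ wfox_hom y yh (δ b) (r a) _) (fun a => (m a a : K))
    (fun a k1 => (hm2 a a).1 ((CharP.cast_eq_zero_iff K p _).1 k1) rfl) fun a => by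
    have h1 := wfox_prod ξ (r a)
    rw [hs (Polynomial.C.comp MvPolynomial.C) (fun b => ξ b - 1) fun b hb => by simp [hξ, y0 b hb],
      wfox_sum, prod_count e he ξ fun b hb => by simp [hξ, y0 b hb]] at h1
    have h2 := congrArg (fun f => Polynomial.coeff f (p ^ k)) h1
    simp only [hξ, y1, hm1, Polynomial.coeff_sub, coeff_q_prod, Polynomial.finsetSum_coeff,
      add_sub_cancel_left] at h2
    rw [Polynomial.coeff_one, if_neg (pow_pos hp.pos k).ne', sub_zero,
      Finset.sum_eq_single a (s := univ) (f := fun b => (m a b : MvPolynomial T K) * _)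
        (fun b _ k1 => by
          rw [(CharP.cast_eq_zero_iff (MvPolynomial T K) p _).2 ((hm2 a b).2 k1), zero_mul])
        (by simp)] at h2
    rw [hK, map_natCast, ← h2]
    refine Finset.sum_congr rfl fun b _ => ?_
    rw [mul_assoc, Polynomial.coeff_C_mul, ← hq, Polynomial.coeff_X_mul, mul_comm]
    rfl
  refine ⟨fun b => MvPolynomial.eval φ (y b), fun b hb => by simp [y0 b hb], fun z => ?_⟩
  obtain ⟨v, hv⟩ := Matrix.mulVec_surjective_iff_isUnit.2
    ((Matrix.isUnit_iff_isUnit_det _).2 (Ne.isUnit hφ)) z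
  refine ⟨Function.extend e v 0, fun a => ?_⟩
  rw [hs Polynomial.C (fun b => Polynomial.C (Function.extend e v 0 b)) fun b hb => by
    rw [Function.extend_apply' _ _ b hb]; simp, wfox_sum, Polynomial.finsetSum_coeff, ← hv]
  refine Finset.sum_congr rfl fun b _ => ?_
  have h1 := wfox_map (Polynomial.mapRingHom (MvPolynomial.eval φ)) ξ
    (fun x => Polynomial.C (MvPolynomial.C (δ b x))) (r a)
  simp only [hξ, Polynomial.coe_mapRingHom, Polynomial.map_add, Polynomial.map_mul,
    Polynomial.map_one, Polynomial.map_C, Polynomial.map_X, MvPolynomial.eval_C] at h1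
  rw [Polynomial.coeff_C_mul, he.extend_apply, ← h1, Polynomial.coeff_map, mul_comm]
  rfl

end Pool.Agent.Lib.MP_34a149_al.PG
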