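import Pool.Agent.Lib.MP_34a149_al.PG.Base

/-!
Positive words with prescribed exponent sums, and the derived series.
-/

namespace Pool.Agent.Lib.MP_34a149_al.PG

open Finset

private lemma word_of_mem {E β : Type} [Group E] [Finite E] (z : β → E) {u : E}
    (hu : u ∈ Subgroup.closure (Set.range z)) : ∃ w : List β, (w.map z).prod = u := by
  have h : u ∈ Submonoid.closure (Set.range z) := by
    rw [← Subgroup.closure_toSubmonoid_of_finite]
    exact hu
  clear hu
  induction h using Submonoid.closure_induction with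
  | mem x hx =>
    obtain ⟨b, rfl⟩ := hx
    exact ⟨[b], by simp⟩
  | one => exact ⟨[], by simp⟩
  | mul x y _ _ hx hy =>
    obtain ⟨w1, rfl⟩ := hx
    obtain ⟨w2, rfl⟩ := hy
    exact ⟨w1 ++ w2, by simp⟩

theorem exists_word {P β : Type} [Group P] [Fintype β] [DecidableEq β] (W : Subgroup P) [W.Normal]
    [W.FiniteIndex] (y : β → P) (hy : Subgroup.closure (Set.range y) ⊔ W = ⊤) (M : ℕ) [NeZero M]
    (a : β) (N : ℕ) (hN : y a ^ N ∈ commutator P) :
    ∃ w : List β, (w.map y).prod ∈ W ∧
      ∀ b, ((w.count b : ℕ) : ZMod M) = if b = a then (N : ZMod M) else 0 := by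
  let z : β → (P ⧸ W) × Multiplicative (β → ZMod M) := fun b =>
    (QuotientGroup.mk' W (y b), Multiplicative.ofAdd (Pi.single b 1))
  let Y := Subgroup.closure (Set.range z)
  have hY : Y.map (MonoidHom.fst _ _) = (⊤ : Subgroup P).map (QuotientGroup.mk' W) := by
    rw [← hy, Subgroup.map_sup, QuotientGroup.map_mk'_self, sup_bot_eq, MonoidHom.map_closure,
      MonoidHom.map_closure, ← Set.range_comp, ← Set.range_comp]
    rfl
  have h1 : QuotientGroup.mk' W (y a ^ N) ∈ ⁅Y, Y⁆.map (MonoidHom.fst _ _) := by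
    rw [Subgroup.map_commutator, hY, ← Subgroup.map_commutator]
    exact Subgroup.mem_map_of_mem _ hN
  obtain ⟨t, ht, ht1⟩ := h1
  have ht2 : t.2 = 1 := by
    have h : ⁅Y, Y⁆ ≤ (MonoidHom.snd _ _).ker := by
      rw [Subgroup.commutator_le]
      intro g _ g' _
      rw [MonoidHom.mem_ker, map_commutatorElement, commutatorElement_eq_one_iff_mul_comm,
        mul_comm]
    exact h ht
  have htY : t ∈ Y := by
    refine (Subgroup.commutator_le.2 fun g hg g' hg' => ?_ : ⁅Y, Y⁆ ≤ Y) ht
    rw [commutatorElement_def]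
    exact Y.mul_mem (Y.mul_mem (Y.mul_mem hg hg') (Y.inv_mem hg)) (Y.inv_mem hg')
  obtain ⟨w, hw⟩ := word_of_mem z (u := z a ^ N * t⁻¹)
    (Y.mul_mem (Y.pow_mem (Subgroup.subset_closure ⟨a, rfl⟩) N) (Y.inv_mem htY))
  have k1 : ∀ w : List β, (w.map z).prod.1 = QuotientGroup.mk' W (w.map y).prod := by
    intro w
    induction w with
    | nil => simp
    | cons b w ih => simp only [List.map_cons, List.prod_cons, Prod.fst_mul, ih, map_mul, z]
  have k2 : ∀ (w : List β) (b : β),
      Multiplicative.toAdd (w.map z).prod.2 b = ((w.count b : ℕ) : ZMod M) := by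
    intro w b
    induction w with
    | nil => simp
    | cons c w ih =>
      simp only [List.map_cons, List.prod_cons, Prod.snd_mul, toAdd_mul, Pi.add_apply, ih,
        List.count_cons, Nat.cast_add]
      by_cases h : c = b
      · subst h
        simp [z, add_comm]
      · simp [z, h]
  refine ⟨w, ?_, fun b => ?_⟩
  · rw [← QuotientGroup.eq_one_iff]
    have h := k1 w
    rw [hw] at h
    refine h.symm.trans ?_
    have ht1' : t.1 = QuotientGroup.mk' W (y a ^ N) := ht1
    rw [Prod.fst_mul, Prod.fst_inv, ht1', Prod.pow_fst, map_pow, mul_inv_cancel]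
  · rw [← k2, hw, Prod.snd_mul, Prod.snd_inv, ht2, inv_one, mul_one, Prod.pow_snd]
    by_cases h : b = a
    · subst h
      simp [z]
    · simp [z, h]

variable {G : Type} [Group G] (p : ℕ)

lemma pDerived_mono {H H' : Subgroup G} (h : H ≤ H') (n : ℕ) :
    pDerived p H n ≤ pDerived p H' n := by
  induction n with
  | zero => exact h
  | succ n ih =>
    refine sup_le_sup (Subgroup.commutator_mono ih ih) (Subgroup.closure_mono ?_)
    rintro _ ⟨x, hx, rfl⟩
    exact ⟨x, ih hx, rfl⟩

lemma pDerived_add (H : Subgroup G) (a b : ℕ) :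
    pDerived p (pDerived p H a) b = pDerived p H (a + b) := by
  induction b with
  | zero => rfl
  | succ b ih => rw [← add_assoc, pDerived, pDerived, ih]

lemma pDerived_anti (H : Subgroup G) {a b : ℕ} (h : a ≤ b) :
    pDerived p H b ≤ pDerived p H a := by
  refine antitone_nat_of_succ_le (f := pDerived p H) (fun n => ?_) h
  refine sup_le (Subgroup.commutator_le.2 fun g hg g' hg' => ?_) ((Subgroup.closure_le _).2 ?_)
  · rw [commutatorElement_def]
    exact mul_mem (mul_mem (mul_mem hg hg') (inv_mem hg)) (inv_mem hg')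
  · rintro _ ⟨x, hx, rfl⟩
    exact pow_mem hx p

lemma pDerived_map {G' : Type} [Group G'] (f : G →* G') (H : Subgroup G) (n : ℕ) :
    (pDerived p H n).map f = pDerived p (H.map f) n := by
  induction n with
  | zero => rfl
  | succ n ih =>
    rw [pDerived, pDerived, Subgroup.map_sup, Subgroup.map_commutator, MonoidHom.map_closure, ← ih]
    congr 2
    ext u
    constructor
    · rintro ⟨_, ⟨x, hx, rfl⟩, rfl⟩
      exact ⟨f x, ⟨x, hx, rfl⟩, (map_pow f x p).symm⟩
    · rintro ⟨_, ⟨x, hx, rfl⟩, rfl⟩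
      exact ⟨x ^ p, ⟨x, hx, rfl⟩, map_pow f x p⟩

lemma pDerived_le_ker {A : Type} [CommGroup A] (χ : G →* A) (k : ℕ)
    (h : ∀ g, χ g ^ p ^ k = 1) : pDerived p ⊤ k ≤ χ.ker := by
  have key : ∀ n, pDerived p ⊤ n ≤ ((powMonoidHom (p ^ n)).comp χ).range.comap χ := by
    intro n
    induction n with
    | zero => exact fun g _ => ⟨g, by simp⟩
    | succ n ih =>
      refine sup_le (Subgroup.commutator_le.2 fun g _ g' _ => ⟨1, ?_⟩)
        ((Subgroup.closure_le _).2 ?_)
      · rw [map_one, map_commutatorElement, eq_comm, commutatorElement_eq_one_iff_mul_comm,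
          mul_comm]
      · rintro _ ⟨x, hx, rfl⟩
        obtain ⟨g, hg⟩ := ih hx
        refine ⟨g, ?_⟩
        rw [map_pow, ← hg]
        simp [pow_succ, pow_mul]
  intro g hg
  obtain ⟨g', hg'⟩ := key k hg
  rw [MonoidHom.mem_ker, ← hg']
  exact h g'

instance pDerived_normal (H : Subgroup G) [H.Normal] (n : ℕ) : (pDerived p H n).Normal := by
  refine ⟨fun x hx g => ?_⟩
  have h : (pDerived p H n).map (MulAut.conj g).toMonoidHom ≤ pDerived p H n := by
    rw [pDerived_map]
    refine pDerived_mono p ?_ n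
    rintro _ ⟨u, hu, rfl⟩
    exact Subgroup.Normal.conj_mem inferInstance u hu g
  exact h ⟨x, hx, rfl⟩

private lemma index_one [Fact p.Prime] (K : Type) [Group K] [Group.FG K] :
    ∃ e, (pDerived p (⊤ : Subgroup K) 1).index = p ^ e := by
  have hc : IsMulCommutative (K ⧸ pDerived p (⊤ : Subgroup K) 1) :=
    Subgroup.Normal.quotient_commutative_iff_commutator_le.2 le_sup_left
  have hp : ∀ q : K ⧸ pDerived p (⊤ : Subgroup K) 1, q ^ p = 1 := by
    intro q
    obtain ⟨g, rfl⟩ := QuotientGroup.mk_surjective q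
    rw [← QuotientGroup.mk_pow, QuotientGroup.eq_one_iff]
    exact Subgroup.mem_sup_right (Subgroup.subset_closure ⟨g, trivial, rfl⟩)
  let : CommGroup (K ⧸ pDerived p (⊤ : Subgroup K) 1) :=
    { (inferInstance : Group (K ⧸ pDerived p (⊤ : Subgroup K) 1)) with
      mul_comm := hc.is_comm.comm }
  have : Finite (K ⧸ pDerived p (⊤ : Subgroup K) 1) :=
    CommGroup.finite_of_fg_isMulTorsion _ fun q =>
      isOfFinOrder_iff_pow_eq_one.2 ⟨p, (Fact.out : p.Prime).pos, hp q⟩
  exact IsPGroup.iff_card.1 fun q => ⟨1, by rw [pow_one, hp]⟩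

lemma pDerived_relIndex [Fact p.Prime] (H : Subgroup G) [Group.FG H] (n : ℕ) :
    ∃ e, (pDerived p H n).relIndex H = p ^ e := by
  induction n with
  | zero => exact ⟨0, Subgroup.relIndex_self H⟩
  | succ n ih =>
    obtain ⟨e, he⟩ := ih
    have hle : pDerived p H n ≤ H := pDerived_anti p H (Nat.zero_le n)
    have : ((pDerived p H n).subgroupOf H).FiniteIndex :=
      ⟨fun h => pow_ne_zero e (Fact.out : p.Prime).ne_zero (he.symm.trans h)⟩
    have : Group.FG (pDerived p H n) :=
      Group.fg_of_surjective (f := (Subgroup.subgroupOfEquivOfLe hle).toMonoidHom)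
        (Subgroup.subgroupOfEquivOfLe hle).surjective
    obtain ⟨e', he'⟩ := index_one p (pDerived p H n)
    have h1 : (pDerived p H (n + 1)).relIndex (pDerived p H n) = p ^ e' := by
      have h2 := pDerived_map p (pDerived p H n).subtype ⊤ 1
      rw [← MonoidHom.range_eq_map, Subgroup.range_subtype, pDerived_add] at h2
      rw [← he', Subgroup.relIndex, ← h2, Subgroup.subgroupOf,
        Subgroup.comap_map_eq_self_of_injective (Subgroup.subtype_injective _)]
    refine ⟨e' + e, ?_⟩
    rw [← Subgroup.relIndex_mul_relIndex _ _ _ (pDerived_anti p H (Nat.le_succ n)) hle, h1, he,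
      pow_add]

private lemma eq_bot_of_card [Fact p.Prime] (e : ℕ) : ∀ (Q : Type) [Group Q],
    Nat.card Q = p ^ e → pDerived p (⊤ : Subgroup Q) e = ⊥ := by
  have hp : p.Prime := Fact.out
  induction e with
  | zero =>
    intro Q _ h
    have := (Nat.card_eq_one_iff_unique.1 h).1
    exact Subsingleton.elim _ _
  | succ e ih =>
    intro Q _ h
    have : Finite Q := Nat.finite_of_card_ne_zero (h ▸ pow_ne_zero _ hp.ne_zero)
    obtain ⟨H, hH⟩ := Sylow.exists_subgroup_card_pow_prime (G := Q) p (n := e)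
      (h ▸ pow_dvd_pow p (Nat.le_succ e))
    have hi : H.index = p := by
      have h1 := H.card_mul_index
      rw [hH, h, pow_succ] at h1
      exact Nat.eq_of_mul_eq_mul_left (pow_pos hp.pos e) h1
    have : H.Normal := Subgroup.normal_of_index_eq_minFac_card (by
      rw [hi, h, hp.pow_minFac (Nat.succ_ne_zero e)])
    have hc : Nat.card (Q ⧸ H) = p := hi
    have : IsCyclic (Q ⧸ H) := isCyclic_of_prime_card hc
    have h1 : pDerived p ⊤ 1 ≤ H := by
      let : CommGroup (Q ⧸ H) := IsCyclic.commGroup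
      have h2 := pDerived_le_ker p (QuotientGroup.mk' H) 1 fun g => by
        rw [pow_one, ← hc]
        exact pow_card_eq_one'
      rwa [QuotientGroup.ker_mk'] at h2
    rw [eq_bot_iff, add_comm, ← pDerived_add]
    refine (pDerived_mono p h1 e).trans ?_
    rw [← H.range_subtype, MonoidHom.range_eq_map, ← pDerived_map, ih H hH, Subgroup.map_bot]

lemma pDerived_le_of_index [Fact p.Prime] (K : Subgroup G) [K.Normal] (e : ℕ)
    (h : K.index = p ^ e) : pDerived p ⊤ e ≤ K := by
  have h1 := eq_bot_of_card p e (G ⧸ K) h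
  rw [← Subgroup.map_top_of_surjective _ (QuotientGroup.mk'_surjective K), ← pDerived_map,
    Subgroup.map_eq_bot_iff, QuotientGroup.ker_mk'] at h1
  exact h1

end Pool.Agent.Lib.MP_34a149_al.PG
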