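import Pool.Agent.Lib.MP_34a149_al.PG.Struct
import Pool.Agent.Lib.MP_34a149_al.PG.Count
import Pool.Agent.Lib.MP_34a149_al.PG.Wiebe
import Pool.Agent.Lib.MP_34a149_al.PG.Words

/-!
Cyclic summands of order `p ^ k` in the abelianization force a loss of homology in an abelian
cover of bounded degree.
-/

namespace Pool.Agent.Lib.MP_34a149_al.PG

open Finset Polynomial

lemma exists_char {A : Type} [CommGroup A] (N : ℕ) (U : A) (h : U ^ N = 1) :
    ∃ χ : Multiplicative (ZMod N) →* A, χ (Multiplicative.ofAdd 1) = U ∧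
      ∀ z, ∃ j : ℤ, χ z = U ^ j := by
  let f : ZMod N →+ Additive A := ZMod.lift N ⟨zmultiplesHom _ (Additive.ofMul U), by
    simp [← ofMul_pow, h]⟩
  have hf : ∀ j : ℤ, f (j : ZMod N) = Additive.ofMul (U ^ j) := fun j => by
    simp [f, ZMod.lift_coe]
  refine ⟨AddMonoidHom.toMultiplicativeLeft f, ?_, fun z => ?_⟩
  · have := hf 1
    rw [Int.cast_one, zpow_one] at this
    simp [this]
  · obtain ⟨j, hj⟩ := ZMod.intCast_surjective z.toAdd
    refine ⟨j, ?_⟩
    have := hf j
    rw [hj] at this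
    simp [this]

variable {P ι : Type} [Group P] [Fintype ι] {n : ι → ℕ} {x : ι → P}
  {c : ∀ a, P →* Multiplicative (ZMod (n a))}

lemma IsStruct.exists_chi (h : IsStruct n x c) {A : Type} [CommGroup A] (U : ι → A)
    (hU : ∀ a, U a ^ n a = 1) (q : ℕ) (hq : ∀ a, U a ^ q = 1) :
    ∃ χ : P →* A, (∀ a, χ (x a) = U a) ∧ ∀ g, χ g ^ q = 1 := by
  classical
  choose χ h1 h2 using fun a => exists_char (n a) (U a) (hU a)
  refine ⟨∏ a, (χ a).comp (c a), fun a => ?_, fun g => ?_⟩
  · rw [MonoidHom.finsetProd_apply, prod_eq_single a]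
    · simp [h.self, h1]
    · intro b _ hb
      simp [h.ne b a hb]
    · simp
  · rw [MonoidHom.finsetProd_apply, ← prod_pow]
    refine prod_eq_one fun a _ => ?_
    obtain ⟨j, hj⟩ := h2 a (c a g)
    rw [MonoidHom.comp_apply, hj, ← zpow_natCast, ← zpow_mul, mul_comm, zpow_mul, zpow_natCast,
      hq, one_zpow]

lemma card_sub_cnt (n : ι → ℕ) (q : ℕ) : Fintype.card {a // q ∣ n a} = cnt n q := by
  classical
  rw [Fintype.card_subtype, cnt]

lemma gen_of_struct (p : ℕ) [Fact p.Prime] (h : IsStruct n x c) (W : Subgroup P) [W.Normal]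
    [W.FiniteIndex] (hW : ∀ g : P, ∃ e, g ^ p ^ e ∈ W) :
    Subgroup.closure (Set.range fun b : {a // p ∣ n a} => x b.1) ⊔ W = ⊤ :=
  burnside p W hW _ fun _ hl h0 => h.hom_zero p hl fun a ha => h0 _ ⟨⟨a, ha⟩, rfl⟩

theorem mono (p : ℕ) [Fact p.Prime] (P : Type) [Group P] [Group.FG P] (K : Subgroup P) [K.Normal]
    (e : ℕ) (hK : K.index = p ^ e) :
    Module.finrank (ZMod p) (homs (ZMod p) K) + K.index ≤
      K.index * Module.finrank (ZMod p) (homs (ZMod p) P) + 1 := by
  classical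
  have : K.FiniteIndex := ⟨by rw [hK]; exact pow_ne_zero _ (Fact.out : p.Prime).ne_zero⟩
  obtain ⟨ι, _, n, x, c, h⟩ := exists_struct P
  have h1 := gen_of_struct p h (Fr (ZMod p) K) fun g => ⟨e + 1, by
    rw [pow_succ, pow_mul]
    exact pow_mem_Fr p _ (hK ▸ K.pow_index_mem g)⟩
  have h2 := count (ZMod p) K (T := Empty) _ h1 (fun a => a.elim) (fun a => a.elim)
    fun _ => ⟨0, fun a => a.elim⟩
  rw [card_sub_cnt, ← h.finrank_homs (ZMod p) p] at h2
  simpa using h2

lemma wint_eq {Q β K B : Type} [Monoid Q] [Field K] [AddCommGroup B] (f : K[X])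
    (χ : Q →* AdjoinRoot f) (y : β → Q) (ξ v : β → K[X])
    (hy : ∀ b, χ (y b) = AdjoinRoot.mk f (ξ b)) (θ : AdjoinRoot f →+ B) (w : List β) :
    ∀ q, wint y (fun e => θ (χ e.1 * AdjoinRoot.mk f (v e.2))) w q =
      θ (χ q * AdjoinRoot.mk f (wfox ξ v w)) := by
  induction w with
  | nil => simp [wint, wfox]
  | cons b w ih =>
    intro q
    rw [wint, wfox, ih, ← map_add, map_mul χ, hy]
    congr 1
    simp only [map_add, map_mul]
    ring

theorem key (p : ℕ) [Fact p.Prime] (k : ℕ) (hk : 0 < k) [Group.FG P] (h : IsStruct n x c) :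
    ∃ K : Subgroup P, K.Normal ∧ (∃ e, K.index = p ^ e) ∧ K.index ≤ (p ^ k) ^ p ^ k ∧
      pDerived p ⊤ k ≤ K ∧
      Module.finrank (ZMod p) (homs (ZMod p) K) + K.index + cnt n (p ^ k) ≤
        K.index * Module.finrank (ZMod p) (homs (ZMod p) P) + 1 + cnt n (p ^ (k + 1)) := by
  classical
  have hp : p.Prime := Fact.out
  let K := GaloisField p k
  have : Fintype K := Fintype.ofFinite _
  have hK : Fintype.card K = p ^ k := by
    rw [← Nat.card_eq_fintype_card]
    exact GaloisField.card p k hk.ne'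
  have hq : p ^ k ≠ 0 := pow_ne_zero _ hp.ne_zero
  let f : K[X] := X ^ p ^ k
  have hf : f.Monic := monic_X_pow _
  let A := AdjoinRoot f
  have : Module.Finite K A := (AdjoinRoot.powerBasis' hf).finite
  have : Finite A := Module.finite_of_finite K
  have hA : Nat.card A = (p ^ k) ^ p ^ k := by
    rw [Module.natCard_eq_pow_finrank (K := K), Nat.card_eq_fintype_card, hK,
      (AdjoinRoot.powerBasis' hf).finrank, AdjoinRoot.powerBasis'_dim, natDegree_X_pow]
  have hu : ∀ t : K, (AdjoinRoot.mk f (1 + C t * X)) ^ p ^ k = 1 := fun t => by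
    rw [← map_pow, add_pow_char_pow, one_pow, mul_pow, map_add, map_mul, AdjoinRoot.mk_self]
    simp
  let u : K → Aˣ := fun t => Units.ofPowEqOne _ _ (hu t) hq
  have hu1 : ∀ t, (u t : A) = AdjoinRoot.mk f (1 + C t * X) := fun t => rfl
  have hu2 : ∀ t, u t ^ p ^ k = 1 := fun t => Units.pow_ofPowEqOne _ _
  have hu0 : u 0 = 1 := Units.ext (by simp [hu1])
  let T := {a // p ^ k ∣ n a ∧ ¬ p ^ (k + 1) ∣ n a}
  let e : T → {a // p ∣ n a} := fun a => ⟨a.1, (dvd_pow_self p hk.ne').trans a.2.1⟩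
  have he : Function.Injective e := fun a b hab => Subtype.ext (congrArg (fun z => z.1) hab)
  let Φ := {φ : {a // p ∣ n a} → K // ∀ b, b ∉ Set.range e → φ b = 0}
  have hχ : ∀ φ : Φ, ∃ χ : P →* Aˣ, (∀ b : {a // p ∣ n a}, χ (x b.1) = u (φ.1 b)) ∧
      ∀ g, χ g ^ p ^ k = 1 := fun φ => by
    obtain ⟨χ, h1, h2⟩ := h.exists_chi (fun a => if ha : p ∣ n a then u (φ.1 ⟨a, ha⟩) else 1)
      (fun a => by
        by_cases ha : p ∣ n a
        · rw [dif_pos ha]
          by_cases hb : (⟨a, ha⟩ : {a // p ∣ n a}) ∈ Set.range e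
          · obtain ⟨t, ht⟩ := hb
            obtain ⟨m, hm⟩ := t.2.1
            have : a = t.1 := (congrArg (fun z => z.1) ht).symm
            subst this
            rw [hm, pow_mul, hu2, one_pow]
          · rw [φ.2 _ hb, hu0, one_pow]
        · rw [dif_neg ha, one_pow]) (p ^ k) (fun a => by
        by_cases ha : p ∣ n a
        · rw [dif_pos ha, hu2]
        · rw [dif_neg ha, one_pow])
    exact ⟨χ, fun b => by rw [h1, dif_pos b.2], h2⟩
  choose χ hχ1 hχ2 using hχ
  have hfi : ∀ φ, (χ φ).ker.FiniteIndex := fun φ => inferInstance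
  let W : Subgroup P := ⨅ φ, Fr (ZMod p) (χ φ).ker
  have : W.Normal := Subgroup.normal_iInf_normal fun φ => inferInstance
  have : W.FiniteIndex := Subgroup.finiteIndex_iInf fun φ => inferInstance
  have h1 := gen_of_struct p h W fun g => ⟨k + 1, Subgroup.mem_iInf.2 fun φ => by
    rw [pow_succ, pow_mul]
    exact pow_mem_Fr p _ (by rw [MonoidHom.mem_ker, map_pow, hχ2])⟩
  have : NeZero (p ^ (k + 1)) := ⟨pow_ne_zero _ hp.ne_zero⟩
  choose r hr1 hr2 using fun a : T => exists_word W _ h1 (p ^ (k + 1)) (e a) (n a) (h.pow_mem a.1)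
  obtain ⟨φ, hφ, hsurj⟩ := poly_fox p k hk hK e he (fun a => n a) (fun a => a.2) r fun a b => by
    rw [hr2]
    simp only [he.eq_iff]
  let χ0 := χ ⟨φ, hφ⟩
  have hW : W ≤ Fr (ZMod p) χ0.ker := iInf_le _ _
  obtain ⟨τ, hτ⟩ := (Algebra.linearMap (ZMod p) K).exists_leftInverse_of_injective
    (LinearMap.ker_eq_bot.2 (algebraMap (ZMod p) K).injective)
  have h2 := count (ZMod p) χ0.ker _ (eq_top_iff.2 (h1.ge.trans (sup_le_sup_left hW _))) r
    (fun a => hW (hr1 a)) fun z => by
      obtain ⟨v, hv⟩ := hsurj fun a => algebraMap (ZMod p) K (z a)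
      let θ : A →+ ZMod p := τ.toAddMonoidHom.comp
        ((lcoeff K (p ^ k - 1)) ∘ₗ AdjoinRoot.modByMonicHom hf).toAddMonoidHom
      refine ⟨_, fun a => (wint_eq f ((Units.coeHom A).comp (QuotientGroup.kerLift χ0)) _
        (fun b => 1 + C (φ b) * X) (fun b => C (v b)) (fun b => by
          simp [χ0, hχ1, hu1]) θ (r a) 1).trans ?_⟩
      rw [map_one, one_mul]
      have a1 := hv a
      set g := wfox (fun b => 1 + C (φ b) * X) (fun b => C (v b)) (r a)
      have a2 : (g %ₘ f).coeff (p ^ k - 1) = g.coeff (p ^ k - 1) := by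
        conv_rhs => rw [← modByMonic_add_div g f]
        rw [coeff_add, coeff_X_pow_mul', if_neg (by omega), add_zero]
      have a3 := LinearMap.congr_fun hτ (z a)
      simp only [θ, AddMonoidHom.comp_apply, LinearMap.toAddMonoidHom_coe, LinearMap.comp_apply,
        AdjoinRoot.modByMonicHom_mk, lcoeff_apply, a2, a1]
      exact a3
  have hidx : χ0.ker.index = Nat.card χ0.range := Subgroup.index_ker χ0
  refine ⟨χ0.ker, inferInstance, ?_, ?_, pDerived_le_ker p χ0 k (hχ2 _), ?_⟩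
  · rw [hidx]
    refine IsPGroup.iff_card.1 fun g => ⟨k, Subtype.ext ?_⟩
    obtain ⟨_, g, rfl⟩ := g
    exact hχ2 _ g
  · rw [hidx, ← hA]
    exact Nat.card_le_card_of_injective (fun g : χ0.range => (g.1 : A))
      fun a b hab => Subtype.ext (Units.ext hab)
  · rw [card_sub_cnt, ← h.finrank_homs (ZMod p) p] at h2
    have h3 : Fintype.card T + cnt n (p ^ (k + 1)) = cnt n (p ^ k) := by
      rw [Fintype.card_subtype, cnt, cnt, ← card_union_of_disjoint]
      · congr 1
        ext a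
        simp only [mem_union, mem_filter, mem_univ, true_and]
        constructor
        · rintro (ha | ha)
          · exact ha.1
          · exact (pow_dvd_pow p (Nat.le_succ k)).trans ha
        · tauto
      · rw [disjoint_filter]
        tauto
    omega

end Pool.Agent.Lib.MP_34a149_al.PG
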