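import Pool.Agent.Lib.MP_34a149_al.PG.Base

/-!
Lifting powers of the contraction to the Cayley graph.
-/

namespace Pool.Agent.Lib.MP_34a149_al.PG

open Finset

variable {G α ρ : Type} [Group G] [Fintype α] [Fintype ρ] {s : α → G} {c : ρ → G × α →₀ ℤ}

namespace LiftAux

omit [Fintype α] in
lemma pq_smul (ω : G × α → ℝ) (x : G) (t : ℝ) (u : G × α →₀ ℝ) :
    pq ω x (t • u) = t * pq ω x u := by
  unfold pq
  rw [Finsupp.sum_smul_index' (by simp), Finsupp.mul_sum]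
  simp only [smul_eq_mul, mul_assoc]

omit [Fintype α] in
lemma pq_sum {I : Type} (ω : G × α → ℝ) (x : G) (S : Finset I) (u : I → G × α →₀ ℝ) :
    pq ω x (∑ i ∈ S, u i) = ∑ i ∈ S, pq ω x (u i) := by
  classical
  induction S using Finset.induction_on with
  | empty => simp [pq]
  | insert i S hi ih => rw [sum_insert hi, sum_insert hi, pq_add, ih]

/-- Left translation of a chain. -/
noncomputable def trl (x : G) (u : G × α →₀ ℝ) : G × α →₀ ℝ :=
  u.mapDomain fun e => (x * e.1, e.2)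

omit [Fintype α] in
lemma pq_trl (ω : G × α → ℝ) (g x : G) (u : G × α →₀ ℝ) :
    pq ω g (trl x u) = pq ω (g * x) u := by
  unfold pq trl
  rw [Finsupp.sum_mapDomain_index (by simp) (by simp [add_mul])]
  simp only [mul_assoc]

/-- Substitution of chains for edges. -/
noncomputable def cmp (t : G × α →₀ ℝ) (v : α → (G × α →₀ ℝ)) : G × α →₀ ℝ :=
  t.sum fun e r => r • trl e.1 (v e.2)

omit [Fintype α] in
lemma pq_cmp (ω : G × α → ℝ) (g : G) (t : G × α →₀ ℝ) (v : α → (G × α →₀ ℝ)) :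
    pq ω g (cmp t v) = pq (fun e => pq ω e.1 (v e.2)) g t := by
  unfold cmp
  rw [Finsupp.sum, pq_sum]
  simp only [pq_smul, pq_trl]
  rfl

/-- The real chain of a relator. -/
noncomputable def cR (c : ρ → G × α →₀ ℤ) (r : ρ) : G × α →₀ ℝ :=
  (c r).mapRange (Int.cast : ℤ → ℝ) Int.cast_zero

omit [Fintype α] [Fintype ρ] in
lemma pq_cR (ω : G × α → ℝ) (g : G) (r : ρ) :
    pq ω g (cR c r) = (c r).sum fun e k => (k : ℝ) * ω (g * e.1, e.2) := by
  unfold pq cR
  rw [Finsupp.sum_mapRange_index (by simp)]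

open Classical in
/-- The Laplacian applied to a basic edge. -/
noncomputable def lap (c : ρ → G × α →₀ ℤ) (a : α) : G × α →₀ ℝ :=
  ∑ r, ∑ e ∈ (c r).support, (if e.2 = a then (c r e : ℝ) else 0) • trl e.1⁻¹ (cR c r)

/-- One step of the contraction. -/
noncomputable def stp (c : ρ → G × α →₀ ℤ) (a : α) : G × α →₀ ℝ :=
  Finsupp.single (1, a) 1 - ((Lc c : ℝ) ^ 2)⁻¹ • lap c a

/-- The powers of the contraction. -/
noncomputable def pw (c : ρ → G × α →₀ ℤ) : ℕ → α → (G × α →₀ ℝ)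
  | 0, a => Finsupp.single (1, a) 1
  | k + 1, a => cmp (stp c a) (pw c k)

omit [Fintype α] in
lemma pq_df_stp (h : IsPres s c) (f : G → ℝ) (x : G) (a : α) :
    pq (df s f) x (stp c a) = df s f (x, a) := by
  have h1 : ∀ r y, pq (df s f) y (cR c r) = 0 := fun r y => by
    rw [pq_cR]
    simpa [df] using h.cycle ℝ f r y
  unfold stp lap
  rw [pq_sub, pq_single, pq_smul]
  simp only [pq_sum, pq_smul, pq_trl, h1, mul_zero, sum_const_zero, mul_one, sub_zero]

omit [Fintype α] in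
lemma pq_df_pw (h : IsPres s c) (f : G → ℝ) (k : ℕ) (x : G) (a : α) :
    pq (df s f) x (pw c k a) = df s f (x, a) := by
  induction k generalizing x a with
  | zero => rw [pw, pq_single, mul_one]
  | succ k ih =>
    rw [pw, pq_cmp]
    simp only [ih]
    exact pq_df_stp h f x a

/-- The pull back of a function on the edges of the cover. -/
def pull (H : Subgroup G) (w : (G ⧸ H) × α → ℝ) : G × α → ℝ :=
  fun e => w (((e.1⁻¹ : G) : G ⧸ H), e.2)

open Matrix

variable (H : Subgroup G) [Fintype (G ⧸ H)]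

omit [Fintype ρ] in
lemma J_mulVec (w : (G ⧸ H) × α → ℝ) (g : G) (r : ρ) :
    ((Jmat c H).map (Int.cast : ℤ → ℝ) *ᵥ w) (((g⁻¹ : G) : G ⧸ H), r)
      = pq (pull H w) g (cR c r) := by
  classical
  rw [pq_cR]
  simp only [Matrix.mulVec, dotProduct, Matrix.map_apply, Jmat, Finsupp.sum, Int.cast_sum,
    sum_mul]
  rw [sum_comm]
  refine sum_congr rfl fun e _ => ?_
  rw [sum_eq_single (e.1⁻¹ • ((g⁻¹ : G) : G ⧸ H), e.2)]
  · simp [pull]
  · intro v _ hv
    rw [if_neg fun h => hv (Prod.ext h.1.symm h.2.symm)]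
    simp
  · simp

open Classical in
omit [Fintype α] in
lemma Jt_mulVec (z : (G ⧸ H) × ρ → ℝ) (u : G ⧸ H) (a : α) :
    (((Jmat c H).map (Int.cast : ℤ → ℝ))ᵀ *ᵥ z) (u, a)
      = ∑ r, ∑ e ∈ (c r).support, (if e.2 = a then (c r e : ℝ) else 0) * z (e.1 • u, r) := by
  simp only [Matrix.mulVec, dotProduct, Matrix.transpose_apply, Matrix.map_apply, Jmat,
    Finsupp.sum, Int.cast_sum, sum_mul]
  rw [Fintype.sum_prod_type_right]
  refine sum_congr rfl fun r _ => ?_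
  dsimp only
  rw [sum_comm]
  refine sum_congr rfl fun e _ => ?_
  rw [sum_eq_single (e.1 • u)]
  · by_cases h : e.2 = a <;> simp [h]
  · intro v _ hv
    rw [if_neg fun h => hv (by rw [← h.1, smul_inv_smul])]
    simp
  · simp

variable [DecidableEq ((G ⧸ H) × α)]

lemma T_mulVec (w : (G ⧸ H) × α → ℝ) (g : G) (a : α) :
    (Tmat (Jmat c H) (Lc c) *ᵥ w) (((g⁻¹ : G) : G ⧸ H), a) = pq (pull H w) g (stp c a) := by
  unfold Tmat stp lap
  rw [Matrix.sub_mulVec, Matrix.one_mulVec, Matrix.smul_mulVec, ← Matrix.mulVec_mulVec,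
    Pi.sub_apply, Pi.smul_apply, Jt_mulVec, pq_sub, pq_single, pq_smul]
  simp only [pq_sum, pq_smul, pq_trl, ← J_mulVec, smul_eq_mul]
  simp [pull]

lemma T_pow_mulVec (k : ℕ) (w : (G ⧸ H) × α → ℝ) (g : G) (a : α) :
    ((Tmat (Jmat c H) (Lc c) ^ k) *ᵥ w) (((g⁻¹ : G) : G ⧸ H), a)
      = pq (pull H w) g (pw c k a) := by
  induction k generalizing g a with
  | zero => simp [pw, pq_single, pull]
  | succ k ih =>
    rw [pow_succ', ← Matrix.mulVec_mulVec, T_mulVec, pw, pq_cmp]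
    congr 1
    funext e
    exact ih e.1 e.2

lemma T_pow_apply (k : ℕ) (g : G) (a : α) (j : (G ⧸ H) × α) :
    (Tmat (Jmat c H) (Lc c) ^ k) (((g⁻¹ : G) : G ⧸ H), a) j
      = (pw c k a).mapDomain (fun e => ((((g * e.1)⁻¹ : G) : G ⧸ H), e.2)) j := by
  have h := T_pow_mulVec (c := c) H k (Pi.single j 1) g a
  rw [Matrix.mulVec_single_one] at h
  refine h.trans ?_
  simp only [pq, pull, Finsupp.mapDomain, Finsupp.sum_apply, Finsupp.single_apply, Pi.single_apply]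
  refine Finsupp.sum_congr fun e _ => ?_
  split_ifs <;> simp

lemma norm_toL2_sq {E : Type} [Fintype E] (u : E →₀ ℝ) : ‖toL2 u‖ ^ 2 = ∑ j, u j ^ 2 := by
  rw [← real_inner_self_eq_norm_sq, inner_toL2, Finsupp.sum_fintype _ _ (by simp)]
  exact sum_congr rfl fun j _ => by rw [toL2_apply, sq]

end LiftAux

theorem lift_pow (h : IsPres s c) (k : ℕ) : ∃ v : α → (G × α →₀ ℝ),
    (∀ a, Finsupp.single (1, a) 1 - v a ∈ cyc s) ∧
    ∀ (N H : Subgroup G) [N.Normal] [Fintype (G ⧸ H)] [DecidableEq ((G ⧸ H) × α)], H ≤ N →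
      (∀ a, ∀ e ∈ (v a).support, ∀ e' ∈ (v a).support, e.1⁻¹ * e'.1 ∈ N → e.1 = e'.1) →
      ∑ i, ∑ j, ((Tmat (Jmat c H) (Lc c) ^ k) i j) ^ 2 = H.index * ∑ a, ‖toL2 (v a)‖ ^ 2 := by
  refine ⟨LiftAux.pw c k, fun a f x => ?_, fun N H _ _ _ hHN hinj => ?_⟩
  · rw [pq_sub, pq_single, LiftAux.pq_df_pw h, mul_one, sub_self]
  · have key : ∀ (u : G ⧸ H) (a : α), ∑ j, ((Tmat (Jmat c H) (Lc c) ^ k) (u, a) j) ^ 2
        = ‖toL2 (LiftAux.pw c k a)‖ ^ 2 := by
      intro u a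
      obtain ⟨g, rfl⟩ : ∃ g : G, u = ((g⁻¹ : G) : G ⧸ H) := ⟨u.out⁻¹, by simp⟩
      simp only [LiftAux.T_pow_apply]
      rw [← LiftAux.norm_toL2_sq]
      refine norm_mapDomain _ _ fun x hx y hy hxy => ?_
      rw [Prod.mk.injEq, QuotientGroup.eq] at hxy
      refine Prod.ext (hinj a y hy x hx ?_).symm hxy.2
      have h1 := Subgroup.Normal.conj_mem ‹N.Normal› _ (hHN hxy.1) (g * y.1)⁻¹
      have h2 : y.1⁻¹ * x.1 = (g * y.1)⁻¹ * (((g * x.1)⁻¹)⁻¹ * (g * y.1)⁻¹) * ((g * y.1)⁻¹)⁻¹ := by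
        group
      rw [h2]
      exact h1
    rw [Fintype.sum_prod_type]
    simp only [key]
    rw [sum_const, card_univ, nsmul_eq_mul, Subgroup.index_eq_card, Nat.card_eq_fintype_card]

theorem vnDim_le (s : α → G) (hs : Subgroup.closure (Set.range s) = ⊤)
    (v : α → (G × α →₀ ℝ)) (hv : ∀ a, Finsupp.single (1, a) 1 - v a ∈ cyc s) :
    vnDim (grad s : Set (L2 (G × α) ℝ)) ≤ ∑ a, ‖toL2 (v a)‖ ^ 2 := by
  have hZc : IsClosed (grad s : Set (L2 (G × α) ℝ)) := by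
    rw [grad_eq s hs]
    exact Submodule.isClosed_orthogonal _
  have : CompleteSpace (grad s) := hZc.completeSpace_coe
  rw [vnDim_eq _ hZc, Sys.tr_proj]
  refine sum_le_sum fun a _ => pow_le_pow_left₀ (norm_nonneg _) ?_ 2
  have a4 : toL2 (Finsupp.single (1, a) 1) = (realSys G).xi a := by
    rw [toL2_single]
    unfold Sys.xi
    congr
    exact Subsingleton.elim _ _
  have a2 : toL2 (Finsupp.single (1, a) 1 - v a) ∈ (grad s)ᗮ := by
    rw [grad_eq s hs]
    exact Submodule.le_orthogonal_orthogonal _ ⟨_, hv a, rfl⟩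
  have a3 := (Submodule.starProjection_apply_eq_zero_iff (grad s)).2 a2
  rw [map_sub, map_sub, a4, sub_eq_zero] at a3
  rw [a3]
  exact Submodule.norm_starProjection_apply_le _ _

end Pool.Agent.Lib.MP_34a149_al.PG
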