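import Pool.Agent.Lib.MP_34a149_al.PG.Base

/-!
Small eigenvalues of integer matrices.
-/

namespace Pool.Agent.Lib.MP_34a149_al.PG

open Finset

/-- The analytic estimate for numbers in `[0, B]` whose nonzero members have product at least
one. -/
private lemma real_bound (B : ℝ) (hB : 1 ≤ B) (η : ℝ) (hη : 0 < η) : ∃ k : ℕ,
    ∀ (κ : Type) [Fintype κ] (l : κ → ℝ), (∀ i, 0 ≤ l i) → (∀ i, l i ≤ B) →
      1 ≤ ∏ i with l i ≠ 0, l i →
      ∑ i, (1 - B⁻¹ * l i) ^ (2 * k) ≤ (#{i | l i = 0} : ℕ) + η * Fintype.card κ := by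
  have hB0 : 0 < B := by linarith
  have hlog : 0 ≤ Real.log B := Real.log_nonneg hB
  obtain ⟨c, hc⟩ : ∃ c : ℝ, c = η / (2 * (Real.log B + 1)) := ⟨_, rfl⟩
  have hc0 : 0 < c := by rw [hc]; positivity
  have hcB : c * Real.log B ≤ η / 2 := by
    rw [hc, div_mul_eq_mul_div, div_le_div_iff₀ (by positivity) (by positivity)]
    nlinarith
  have hθ1 : 1 - Real.exp (-c⁻¹) < 1 := by have := Real.exp_pos (-c⁻¹); linarith
  obtain ⟨k, hk⟩ := exists_pow_lt_of_lt_one (half_pos hη) hθ1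
  refine ⟨k, fun κ _ l h0 h1 hp => ?_⟩
  have key : ∀ i, l i ≠ 0 →
      (1 - B⁻¹ * l i) ^ (2 * k) ≤ η / 2 + c * (Real.log B - Real.log (l i)) := by
    intro i hi
    have hl : 0 < l i := lt_of_le_of_ne (h0 i) (Ne.symm hi)
    have ha : 0 ≤ B⁻¹ * l i := by positivity
    have hb : B⁻¹ * l i ≤ 1 := by
      rw [inv_mul_le_iff₀ hB0]
      simpa using h1 i
    have hd : 0 ≤ Real.log B - Real.log (l i) := sub_nonneg.2 (Real.log_le_log hl (h1 i))
    have hle : (1 - B⁻¹ * l i) ^ (2 * k) ≤ (1 - B⁻¹ * l i) ^ k :=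
      pow_le_pow_of_le_one (by linarith) (by linarith) (by omega)
    by_cases hs : Real.exp (-c⁻¹) ≤ B⁻¹ * l i
    · have h2 : (1 - B⁻¹ * l i) ^ k ≤ (1 - Real.exp (-c⁻¹)) ^ k :=
        pow_le_pow_left₀ (by linarith) (by linarith) k
      have h3 : 0 ≤ c * (Real.log B - Real.log (l i)) := by positivity
      linarith
    · have h2 : (1 - B⁻¹ * l i) ^ k ≤ 1 := pow_le_one₀ (by linarith) (by linarith)
      have h3 : Real.log (B⁻¹ * l i) < -c⁻¹ := by
        rw [Real.log_lt_iff_lt_exp (by positivity)]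
        exact not_le.1 hs
      rw [Real.log_mul (by positivity) hi, Real.log_inv] at h3
      have h4 : c⁻¹ ≤ Real.log B - Real.log (l i) := by linarith
      have h5 : c * c⁻¹ ≤ c * (Real.log B - Real.log (l i)) :=
        mul_le_mul_of_nonneg_left h4 hc0.le
      rw [mul_inv_cancel₀ hc0.ne'] at h5
      linarith
  rw [← sum_filter_add_sum_filter_not univ (fun i => l i = 0)]
  have e1 : ∑ i with l i = 0, (1 - B⁻¹ * l i) ^ (2 * k) = ((#{i | l i = 0} : ℕ) : ℝ) := by
    rw [sum_congr rfl (g := fun _ => (1 : ℝ))]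
    · simp
    · intro i hi
      rw [(mem_filter.1 hi).2]
      simp
  have e2 : ∑ i with ¬ l i = 0, (1 - B⁻¹ * l i) ^ (2 * k) ≤ η * Fintype.card κ := by
    have hlp : 0 ≤ ∑ i with ¬ l i = 0, Real.log (l i) := by
      rw [← Real.log_prod (fun i hi => (mem_filter.1 hi).2)]
      exact Real.log_nonneg hp
    have hcard : ((#{i | ¬ l i = 0} : ℕ) : ℝ) ≤ Fintype.card κ := by
      exact_mod_cast card_le_univ _
    calc ∑ i with ¬ l i = 0, (1 - B⁻¹ * l i) ^ (2 * k)
        ≤ ∑ i with ¬ l i = 0, (η / 2 + c * (Real.log B - Real.log (l i))) :=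
          sum_le_sum fun i hi => key i (mem_filter.1 hi).2
      _ = (#{i | ¬ l i = 0} : ℕ) * (η / 2 + c * Real.log B)
          - c * ∑ i with ¬ l i = 0, Real.log (l i) := by
          rw [mul_sum, ← nsmul_eq_mul, ← sum_const, ← sum_sub_distrib]
          exact sum_congr rfl fun i _ => by ring
      _ ≤ (#{i | ¬ l i = 0} : ℕ) * η := by
          have h6 : ((#{i | ¬ l i = 0} : ℕ) : ℝ) * (η / 2 + c * Real.log B)
              ≤ (#{i | ¬ l i = 0} : ℕ) * η :=
            mul_le_mul_of_nonneg_left (by linarith) (Nat.cast_nonneg _)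
          have h7 : 0 ≤ c * ∑ i with ¬ l i = 0, Real.log (l i) := by positivity
          linarith
      _ ≤ η * Fintype.card κ := by
          rw [mul_comm]
          exact mul_le_mul_of_nonneg_left hcard hη.le
  linarith

/-- The Schur test. -/
private lemma schur {ι κ : Type} [Fintype ι] [Fintype κ] (A : Matrix ι κ ℝ) (L : ℝ) (hL : 0 ≤ L)
    (hr : ∀ i, ∑ j, |A i j| ≤ L) (hc : ∀ j, ∑ i, |A i j| ≤ L) (x : κ → ℝ) :
    ∑ i, (∑ j, A i j * x j) ^ 2 ≤ L ^ 2 * ∑ j, x j ^ 2 := by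
  have h1 : ∀ i, (∑ j, A i j * x j) ^ 2 ≤ L * ∑ j, |A i j| * x j ^ 2 := by
    intro i
    have h2 : (∑ j, A i j * x j) ^ 2 ≤ (∑ j, |A i j|) * ∑ j, |A i j| * x j ^ 2 :=
      sum_sq_le_sum_mul_sum_of_sq_le_mul univ (fun j _ => abs_nonneg _)
        (fun j _ => by positivity) (fun j _ => by
          rw [mul_pow, ← mul_assoc, abs_mul_abs_self, sq (A i j)])
    exact h2.trans (mul_le_mul_of_nonneg_right (hr i) (sum_nonneg fun j _ => by positivity))
  calc ∑ i, (∑ j, A i j * x j) ^ 2 ≤ ∑ i, L * ∑ j, |A i j| * x j ^ 2 := sum_le_sum fun i _ => h1 i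
    _ = L * ∑ j, (∑ i, |A i j|) * x j ^ 2 := by
        rw [← mul_sum, sum_comm]
        simp only [sum_mul]
    _ ≤ L * ∑ j, L * x j ^ 2 :=
        mul_le_mul_of_nonneg_left
          (sum_le_sum fun j _ => mul_le_mul_of_nonneg_right (hc j) (sq_nonneg _)) hL
    _ = L ^ 2 * ∑ j, x j ^ 2 := by rw [← mul_sum]; ring

/-- The eigenvalues of `AᵀA` lie in `[0, L²]`. -/
private lemma eig_bounds {ι κ : Type} [Fintype ι] [Fintype κ] [DecidableEq κ] (A : Matrix ι κ ℝ)
    (L : ℝ) (hL : 0 ≤ L) (hr : ∀ i, ∑ j, |A i j| ≤ L) (hc : ∀ j, ∑ i, |A i j| ≤ L)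
    (h : (A.transpose * A).IsHermitian) (i : κ) :
    0 ≤ h.eigenvalues i ∧ h.eigenvalues i ≤ L ^ 2 := by
  obtain ⟨x, hx⟩ : ∃ x : κ → ℝ, x = ⇑(h.eigenvectorBasis i) := ⟨_, rfl⟩
  have h1 : ∑ j, x j ^ 2 = 1 := by
    have := h.eigenvectorBasis.orthonormal.1 i
    have h2 := EuclideanSpace.real_norm_sq_eq (h.eigenvectorBasis i)
    rw [this] at h2
    rw [hx, ← h2]
    norm_num
  have h2 : h.eigenvalues i = ∑ r, (∑ j, A r j * x j) ^ 2 := by
    rw [h.eigenvalues_eq i, ← hx, ← Matrix.mulVec_mulVec, Matrix.dotProduct_mulVec,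
      Matrix.vecMul_transpose]
    simp [dotProduct, Matrix.mulVec, sq]
  refine ⟨h2 ▸ sum_nonneg fun r _ => sq_nonneg _, ?_⟩
  have h3 := schur A L hL hr hc x
  rw [h1, mul_one] at h3
  exact h2 ▸ h3

open Polynomial in
/-- The product of the nonzero eigenvalues of an integral symmetric matrix is a nonzero integer. -/
private lemma prod_eig {κ : Type} [Fintype κ] [DecidableEq κ] (D : Matrix κ κ ℤ)
    (h : (D.map (Int.castRingHom ℝ)).IsHermitian) (h0 : ∀ i, 0 ≤ h.eigenvalues i) :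
    1 ≤ ∏ i with h.eigenvalues i ≠ 0, h.eigenvalues i := by
  have h1 := h.charpoly_eq
  rw [Matrix.charpoly_map, ← prod_filter_mul_prod_filter_not univ (fun i => h.eigenvalues i = 0),
    prod_congr rfl (g := fun _ => (X : ℝ[X])) (fun i hi => by
      rw [(mem_filter.1 hi).2]
      simp), prod_const] at h1
  have h2 := congrArg (fun p => p.coeff (0 + #{i | h.eigenvalues i = 0})) h1
  simp only [coeff_X_pow_mul, coeff_map, coeff_zero_prod, coeff_sub, coeff_X_zero, coeff_C_zero,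
    zero_sub] at h2
  have h3 : |∏ i with ¬ h.eigenvalues i = 0, -(h.eigenvalues i)|
      = ∏ i with h.eigenvalues i ≠ 0, h.eigenvalues i := by
    rw [abs_prod]
    exact prod_congr rfl fun i _ => by rw [abs_neg, abs_of_nonneg (h0 i)]
  have h4 : ∏ i with ¬ h.eigenvalues i = 0, -(h.eigenvalues i) ≠ 0 :=
    prod_ne_zero_iff.2 fun i hi => neg_ne_zero.2 (mem_filter.1 hi).2
  have h5 : ((D.charpoly.coeff (0 + #{i | h.eigenvalues i = 0}) : ℤ) : ℝ)
      = ∏ i with ¬ h.eigenvalues i = 0, -(h.eigenvalues i) := h2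
  rw [← h3, ← h5, ← Int.cast_abs]
  rw [← h5] at h4
  exact_mod_cast Int.one_le_abs (by exact_mod_cast h4)

/-- The sum of squares of the entries of a power of `1 - c D` in terms of eigenvalues. -/
private lemma sum_sq_pow {κ : Type} [Fintype κ] [DecidableEq κ] (D : Matrix κ κ ℝ)
    (h : D.IsHermitian) (c : ℝ) (k : ℕ) :
    ∑ i, ∑ j, (((1 - c • D) ^ k) i j) ^ 2 = ∑ i, (1 - c * h.eigenvalues i) ^ (2 * k) := by
  have hT : (1 - c • D).transpose = 1 - c • D := by
    have h1 : D.transpose = D := by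
      rw [← Matrix.conjTranspose_eq_transpose_of_trivial]
      exact h
    rw [Matrix.transpose_sub, Matrix.transpose_one, Matrix.transpose_smul, h1]
  have h1 : ∑ i, ∑ j, (((1 - c • D) ^ k) i j) ^ 2 = ((1 - c • D) ^ (2 * k)).trace := by
    have h2 : (1 - c • D) ^ (2 * k) = (1 - c • D) ^ k * ((1 - c • D) ^ k).transpose := by
      rw [Matrix.transpose_pow, hT, ← pow_add, two_mul]
    rw [h2]
    simp only [Matrix.trace, Matrix.diag_apply, Matrix.mul_apply, Matrix.transpose_apply, sq]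
  have h3 : (1 - c • D) ^ (2 * k) = Unitary.conjStarAlgAut ℝ _ h.eigenvectorUnitary
      (Matrix.diagonal fun i => (1 - c * h.eigenvalues i) ^ (2 * k)) := by
    have h4 : (Matrix.diagonal fun i => (1 - c * h.eigenvalues i) ^ (2 * k))
        = (1 - c • Matrix.diagonal (RCLike.ofReal ∘ h.eigenvalues)) ^ (2 * k) := by
      rw [← Matrix.diagonal_one, ← Matrix.diagonal_smul, Matrix.diagonal_sub, Matrix.diagonal_pow]
      congr 1
    rw [h4, map_pow, map_sub, map_one, map_smul, ← h.spectral_theorem]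
  rw [h1, h3, Unitary.conjStarAlgAut_apply, Matrix.trace_mul_cycle]
  simp

/-- The dimension of the kernel is the number of zero eigenvalues. -/
private lemma ker_eq {ι κ : Type} [Fintype ι] [Fintype κ] [DecidableEq κ] (A : Matrix ι κ ℝ)
    (h : (A.transpose * A).IsHermitian) :
    Module.finrank ℝ (LinearMap.ker A.mulVecLin) = #{i | h.eigenvalues i = 0} := by
  have h1 := LinearMap.finrank_range_add_finrank_ker A.mulVecLin
  have h2 := h.rank_eq_card_non_zero_eigs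
  rw [Matrix.rank_transpose_mul_self, Fintype.card_subtype] at h2
  have h3 := card_filter_add_card_filter_not (s := (univ : Finset κ))
    (fun i => h.eigenvalues i = 0)
  rw [Module.finrank_fintype_fun_eq_card] at h1
  rw [card_univ] at h3
  unfold Matrix.rank at h2
  have h4 : #{i | h.eigenvalues i ≠ 0} = #{i | ¬ h.eigenvalues i = 0} := rfl
  omega

theorem spec (L : ℕ) (hL : 1 ≤ L) (η : ℝ) (hη : 0 < η) : ∃ k : ℕ,
    ∀ (ι κ : Type) [Fintype ι] [Fintype κ] [DecidableEq κ] (J : Matrix ι κ ℤ),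
      (∀ i, ∑ j, (J i j).natAbs ≤ L) → (∀ j, ∑ i, (J i j).natAbs ≤ L) →
      (kerDim J : ℝ) ≤ ∑ i, ∑ j, ((Tmat J L ^ k) i j) ^ 2 ∧
      ∑ i, ∑ j, ((Tmat J L ^ k) i j) ^ 2 ≤ kerDim J + η * Fintype.card κ := by
  have hL1 : (1 : ℝ) ≤ L := by exact_mod_cast hL
  obtain ⟨k, hk⟩ := real_bound ((L : ℝ) ^ 2) (one_le_pow₀ hL1) η hη
  refine ⟨k, fun ι κ _ _ _ J hr hc => ?_⟩
  have h : ((J.map (Int.cast : ℤ → ℝ)).transpose * J.map (Int.cast : ℤ → ℝ)).IsHermitian := by
    rw [← Matrix.conjTranspose_eq_transpose_of_trivial]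
    exact Matrix.isHermitian_conjTranspose_mul_self _
  have hr' : ∀ i, ∑ j, |(J.map (Int.cast : ℤ → ℝ)) i j| ≤ L := by
    intro i
    have : ((∑ j, (J i j).natAbs : ℕ) : ℝ) ≤ L := by exact_mod_cast hr i
    simpa using this
  have hc' : ∀ j, ∑ i, |(J.map (Int.cast : ℤ → ℝ)) i j| ≤ L := by
    intro j
    have : ((∑ i, (J i j).natAbs : ℕ) : ℝ) ≤ L := by exact_mod_cast hc j
    simpa using this
  have hb := eig_bounds _ (L : ℝ) (by linarith) hr' hc' h
  have he : (J.transpose * J).map (Int.castRingHom ℝ)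
      = (J.map (Int.cast : ℤ → ℝ)).transpose * J.map (Int.cast : ℤ → ℝ) := by
    rw [Matrix.map_mul]
    rfl
  have hp : 1 ≤ ∏ i with h.eigenvalues i ≠ 0, h.eigenvalues i := by
    revert hb h
    rw [← he]
    intro h hb
    exact prod_eig _ h fun i => (hb i).1
  rw [Tmat, sum_sq_pow _ h, kerDim, ker_eq _ h]
  refine ⟨?_, hk κ _ (fun i => (hb i).1) (fun i => (hb i).2) hp⟩
  calc ((#{i | h.eigenvalues i = 0} : ℕ) : ℝ)
      = ∑ i with h.eigenvalues i = 0, (1 - ((L : ℝ) ^ 2)⁻¹ * h.eigenvalues i) ^ (2 * k) := by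
        rw [sum_congr rfl (g := fun _ => (1 : ℝ))]
        · simp
        · intro i hi
          rw [(mem_filter.1 hi).2]
          simp
    _ ≤ ∑ i, (1 - ((L : ℝ) ^ 2)⁻¹ * h.eigenvalues i) ^ (2 * k) :=
        sum_le_sum_of_subset_of_nonneg (filter_subset _ _) fun i _ _ => by
          rw [pow_mul]
          positivity

end Pool.Agent.Lib.MP_34a149_al.PG
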