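import Pool.Agent.Lib.MP_34a149_al.PG.Struct
import Pool.Agent.Lib.MP_34a149_al.PG.Cover
import Pool.Agent.Lib.MP_34a149_al.PG.IntKer
import Pool.Agent.Lib.MP_34a149_al.PG.Spec
import Pool.Agent.Lib.MP_34a149_al.PG.Lift

/-!
The torsion bound and the approximation theorem in degree one, uniformly in the subgroup.
-/

namespace Pool.Agent.Lib.MP_34a149_al.PG

open Finset Filter Topology

variable {G α ρ : Type} [Group G] [Fintype α] [Fintype ρ] {s : α → G} {c : ρ → G × α →₀ ℤ}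

lemma IsPres.fg (h : IsPres s c) : Group.FG G :=
  Group.fg_iff.2 ⟨_, h.gen, Set.finite_range s⟩

lemma one_le_Lc (c : ρ → G × α →₀ ℤ) : 1 ≤ Lc c := Nat.le_add_right _ _

lemma card_edges (H : Subgroup G) [Fintype (G ⧸ H)] :
    Fintype.card ((G ⧸ H) × α) = H.index * Fintype.card α := by
  rw [Fintype.card_prod, Subgroup.index_eq_card, Nat.card_eq_fintype_card]

theorem tors (h : IsPres s c) (H : Subgroup G) [H.FiniteIndex] {ι : Type} [Fintype ι] {n : ι → ℕ}
    {x : ι → H} {cc : ∀ a, H →* Multiplicative (ZMod (n a))} (hS : IsStruct n x cc) (p : ℕ)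
    (hp : 2 ≤ p) (K : ℕ) :
    K * cnt n (p ^ K) ≤ K * cnt n 0 + Lc c * (H.index * Fintype.card α) := by
  have := h.fg
  have : Fintype (G ⧸ H) := Fintype.ofFinite _
  have hm : 0 < p ^ K := by positivity
  have : NeZero (p ^ K) := ⟨hm.ne'⟩
  have h1 := hS.card_homs (p ^ K)
  have h2 := card_ker_ge h H (p ^ K)
  have h3 := card_ker_le (Jmat c H) (Lc c) (one_le_Lc c) (Jmat_row c H) (p ^ K)
  have h4 := kerDim_Jmat h H
  rw [hS.finrank_homs ℝ 0] at h4
  rw [card_edges] at h3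
  have h5 : (p ^ K) ^ H.index * (p ^ K) ^ cnt n (p ^ K) ≤
      (p ^ K) ^ H.index * ((p ^ K) ^ cnt n 0 * Lc c ^ (H.index * Fintype.card α)) := by
    refine (Nat.mul_le_mul_left _ h1).trans (h2.trans ((Nat.mul_le_mul_left _ h3).trans_eq ?_))
    rw [← mul_assoc, ← mul_assoc, ← pow_succ', h4, pow_add, mul_comm ((p ^ K) ^ cnt n 0)]
  have h6 := Nat.le_of_mul_le_mul_left h5 (by positivity)
  have h7 : Lc c ≤ p ^ Lc c := (Nat.lt_pow_self (by omega)).le
  have h8 := h6.trans (Nat.mul_le_mul_left _ (Nat.pow_le_pow_left h7 _))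
  rw [← pow_mul, ← pow_mul, ← pow_mul, ← pow_add] at h8
  exact (Nat.pow_le_pow_iff_right (by omega)).1 h8

lemma real_bound (h : IsPres s c) (H : Subgroup G) [H.FiniteIndex] :
    Module.finrank ℝ (homs ℝ H) + H.index ≤ H.index * Fintype.card α + 1 := by
  have := h.fg
  have : Fintype (G ⧸ H) := Fintype.ofFinite _
  rw [← kerDim_Jmat h H, ← card_edges, kerDim]
  have := Submodule.finrank_le (LinearMap.ker ((Jmat c H).map (Int.cast : ℤ → ℝ)).mulVecLin)
  rw [Module.finrank_fintype_fun_eq_card] at this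
  omega

lemma window (h : IsPres s c) (Γ : ℕ → Subgroup G) [∀ i, (Γ i).Normal] (hanti : Antitone Γ)
    (hbot : ∀ g, (∀ i, g ∈ Γ i) → g = 1) (η : ℝ) (hη : 0 < η) :
    ∃ (j : ℕ) (S : ℝ), vnDim (grad s : Set (L2 (G × α) ℝ)) ≤ S ∧ ∀ H : Subgroup G, H ≤ Γ j →
      H.FiniteIndex → S - η ≤ 1 + ((Module.finrank ℝ (homs ℝ H) : ℝ) - 1) / H.index ∧
        1 + ((Module.finrank ℝ (homs ℝ H) : ℝ) - 1) / H.index ≤ S := by
  classical
  have := h.fg
  have hα : (0 : ℝ) < Fintype.card α + 1 := by positivity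
  obtain ⟨k, hk⟩ := spec (Lc c) (one_le_Lc c) (η / (Fintype.card α + 1)) (by positivity)
  obtain ⟨v, hv1, hv2⟩ := lift_pow h k
  have h2 : ∀ᶠ i in atTop, ∀ a, ∀ e ∈ (v a).support ×ˢ (v a).support,
      e.1.1⁻¹ * e.2.1 ∈ Γ i → e.1.1 = e.2.1 := by
    refine eventually_all.2 fun a => (eventually_all_finset _).2 fun e _ => ?_
    by_cases h : e.1.1 = e.2.1
    · exact Eventually.of_forall fun _ _ => h
    · obtain ⟨i, hi⟩ := not_forall.1 (mt (hbot (e.1.1⁻¹ * e.2.1)) (by rwa [inv_mul_eq_one]))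
      filter_upwards [eventually_ge_atTop i] with k hk h1 using absurd (hanti hk h1) hi
  obtain ⟨j, hj⟩ := h2.exists
  refine ⟨j, _, vnDim_le s h.gen v hv1, fun H hH _ => ?_⟩
  have : Fintype (G ⧸ H) := Fintype.ofFinite _
  obtain ⟨a1, a2⟩ := hk _ _ (Jmat c H) (Jmat_row c H) (Jmat_col c H)
  rw [hv2 (Γ j) H hH fun a e he e' he' => hj a (e, e') (mem_product.2 ⟨he, he'⟩)] at a1 a2
  have a3 : (kerDim (Jmat c H) : ℝ) + 1 = Module.finrank ℝ (homs ℝ H) + H.index := by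
    exact_mod_cast kerDim_Jmat h H
  have hpos : (0 : ℝ) < H.index := by
    exact_mod_cast Nat.pos_of_ne_zero Subgroup.FiniteIndex.index_ne_zero
  have a4 : 1 + ((Module.finrank ℝ (homs ℝ H) : ℝ) - 1) / H.index =
      kerDim (Jmat c H) / H.index := by
    field_simp
    linarith
  rw [card_edges] at a2
  have a5 : η / (Fintype.card α + 1) * ((H.index * Fintype.card α : ℕ) : ℝ) ≤ η * H.index := by
    rw [div_mul_eq_mul_div, div_le_iff₀ hα]
    push_cast
    nlinarith [mul_pos hη hpos]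
  rw [a4, le_div_iff₀ hpos, div_le_iff₀ hpos]
  constructor <;> nlinarith

theorem lueck (h : IsPres s c) (Γ : ℕ → Subgroup G) [∀ i, (Γ i).Normal] [∀ i, (Γ i).FiniteIndex]
    (hanti : Antitone Γ) (hbot : ∀ g, (∀ i, g ∈ Γ i) → g = 1) (ε : ℝ) (hε : 0 < ε) :
    ∃ j : ℕ, ∀ H : Subgroup G, H ≤ Γ j → H.FiniteIndex →
      |1 + ((Module.finrank ℝ (homs ℝ H) : ℝ) - 1) / H.index -
        vnDim (grad s : Set (L2 (G × α) ℝ))| ≤ ε := by
  have := h.fg
  set u := fun i => ((b1 ℝ (Γ i) : ℝ) - 1) / (Γ i).index with hu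
  have hc : CauchySeq u := Metric.cauchySeq_iff'.2 fun η hη => by
    obtain ⟨j, S, -, hS⟩ := window h Γ hanti hbot (η / 2) (by positivity)
    refine ⟨j, fun i hi => ?_⟩
    obtain ⟨a1, a2⟩ := hS (Γ i) (hanti hi) inferInstance
    obtain ⟨a3, a4⟩ := hS (Γ j) le_rfl inferInstance
    simp only [hu, b1_eq, Real.dist_eq, abs_lt]
    constructor <;> linarith
  obtain ⟨l, hl⟩ := cauchySeq_tendsto_of_complete hc
  have hk := kazhdan Γ hanti hbot s h.gen (Eventually.of_forall fun i => by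
    obtain ⟨S, hS⟩ := (inferInstance : Group.FG (Γ i)).out
    exact ⟨S, hS⟩) hl
  obtain ⟨j, S, h1, hS⟩ := window h Γ hanti hbot ε hε
  have h2 : S - ε ≤ 1 + l := by
    refine ge_of_tendsto (hl.const_add 1) ?_
    filter_upwards [eventually_ge_atTop j] with i hi
    simp only [hu, b1_eq]
    exact (hS (Γ i) (hanti hi) inferInstance).1
  refine ⟨j, fun H hH hf => ?_⟩
  obtain ⟨a1, a2⟩ := hS H hH hf
  rw [abs_le]
  constructor <;> linarith

end Pool.Agent.Lib.MP_34a149_al.PG
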