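import Pool.Agent.Lib.MP_34a149_al.PG.Base

/-!
Relator chains of a finitely presented group.
-/

namespace Pool.Agent.Lib.MP_34a149_al.PG

open Finset

/-- The kernel of the presentation on any finite generating family is a normal closure of a
finite set. -/
private lemma ker_lift_fin {G α : Type} [Group G] [hG : Group.IsFinitelyPresented G] [Finite α]
    (s : α → G) (hs : Function.Surjective (FreeGroup.lift s)) :
    ∃ T : Set (FreeGroup α), T.Finite ∧ Subgroup.normalClosure T = (FreeGroup.lift s).ker := by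
  obtain ⟨n, φ, hφ, S, hS, hSk⟩ := hG.out
  choose u hu using fun i : Fin n => hs (φ (FreeGroup.of i))
  choose v hv using fun a : α => hφ (s a)
  have hU : (FreeGroup.lift s).comp (FreeGroup.lift u) = φ := by
    ext i
    simp [hu]
  have hV : φ.comp (FreeGroup.lift v) = FreeGroup.lift s := by
    ext a
    simp [hv]
  have hU' : ∀ w, FreeGroup.lift s (FreeGroup.lift u w) = φ w := fun w =>
    DFunLike.congr_fun hU w
  have hV' : ∀ w, φ (FreeGroup.lift v w) = FreeGroup.lift s w := fun w =>
    DFunLike.congr_fun hV w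
  refine ⟨FreeGroup.lift u '' S ∪
    Set.range fun a => (FreeGroup.of a)⁻¹ * FreeGroup.lift u (v a),
    (hS.image _).union (Set.finite_range _), le_antisymm ?_ ?_⟩
  · refine Subgroup.normalClosure_le_normal ?_
    rintro w (⟨w, hw, rfl⟩ | ⟨a, rfl⟩)
    · have h1 : w ∈ φ.ker := hSk ▸ Subgroup.subset_normalClosure hw
      simpa [hU'] using h1
    · simp [hU', hv]
  · intro w hw
    set N := Subgroup.normalClosure (FreeGroup.lift u '' S ∪
      Set.range fun a => (FreeGroup.of a)⁻¹ * FreeGroup.lift u (v a)) with hN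
    have h1 : ((QuotientGroup.mk' N).comp (FreeGroup.lift u)).comp (FreeGroup.lift v) =
        QuotientGroup.mk' N := by
      ext a
      have : (FreeGroup.of a)⁻¹ * FreeGroup.lift u (v a) ∈ N :=
        Subgroup.subset_normalClosure (Or.inr ⟨a, rfl⟩)
      simp only [MonoidHom.comp_apply, FreeGroup.lift_apply_of, QuotientGroup.mk'_apply]
      exact (QuotientGroup.eq.2 this).symm
    have h2 : FreeGroup.lift v w ∈ Subgroup.normalClosure S := by
      rw [hSk, MonoidHom.mem_ker, hV']
      exact hw
    have h3 : Subgroup.normalClosure S ≤ N.comap (FreeGroup.lift u) :=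
      Subgroup.normalClosure_le_normal fun x hx =>
        Subgroup.subset_normalClosure (Or.inl ⟨x, hx, rfl⟩)
    have h4 := DFunLike.congr_fun h1 w
    simp only [MonoidHom.comp_apply, QuotientGroup.mk'_apply] at h4
    rw [← QuotientGroup.eq_one_iff, ← h4, QuotientGroup.eq_one_iff]
    exact h3 h2

section
variable {A : Type} [AddCommGroup A] {G α : Type} [Group G]

/-- `I w g` is the sum of `ω` along the path with label `w` starting at `g`. -/
private def IsI (φ : FreeGroup α →* G) (ω : G × α → A) (I : FreeGroup α → G → A) : Prop :=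
  (∀ a g, I (FreeGroup.of a) g = ω (g, a)) ∧ ∀ w w' g, I (w * w') g = I w g + I w' (g * φ w)

private lemma IsI.one {φ : FreeGroup α →* G} {ω : G × α → A} {I : FreeGroup α → G → A}
    (h : IsI φ ω I) (g : G) : I 1 g = 0 := by
  have := h.2 1 1 g
  simpa using this

private lemma IsI.inv {φ : FreeGroup α →* G} {ω : G × α → A} {I : FreeGroup α → G → A}
    (h : IsI φ ω I) (w : FreeGroup α) (g : G) : I w⁻¹ g = - I w (g * (φ w)⁻¹) := by
  have := h.2 w⁻¹ w g
  rw [inv_mul_cancel, h.one, map_inv] at this
  exact eq_neg_of_add_eq_zero_left this.symm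

private lemma exists_isI (φ : FreeGroup α →* G) (ω : G × α → A) : ∃ I, IsI φ ω I := by
  let B : α → Equiv.Perm (G → A) := fun a =>
    { toFun := fun u g => ω (g, a) + u (g * φ (FreeGroup.of a))
      invFun := fun u g => u (g * (φ (FreeGroup.of a))⁻¹) - ω (g * (φ (FreeGroup.of a))⁻¹, a)
      left_inv := fun u => by
        funext g
        simp
      right_inv := fun u => by
        funext g
        simp }
  have key : ∀ w u g, FreeGroup.lift B w u g = FreeGroup.lift B w 0 g + u (g * φ w) := by
    intro w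
    induction w using FreeGroup.induction_on with
    | C1 => simp
    | of a => simp [B]
    | inv_of a _ =>
      intro u g
      rw [map_inv, FreeGroup.lift_apply_of]
      simp [B, Equiv.Perm.inv_def]
      abel
    | mul v w hv hw =>
      intro u g
      rw [map_mul, Equiv.Perm.mul_apply, Equiv.Perm.mul_apply, hv, hv (FreeGroup.lift B w 0), hw]
      simp [add_assoc, mul_assoc]
  refine ⟨fun w => FreeGroup.lift B w 0, fun a g => by simp [B], fun w w' g => ?_⟩
  simp only [map_mul, Equiv.Perm.mul_apply]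
  exact key _ _ _

private lemma IsI.ker {φ : FreeGroup α →* G} {ω : G × α → A} {I : FreeGroup α → G → A}
    (h : IsI φ ω I) {S : Set (FreeGroup α)} (hS : Subgroup.normalClosure S = φ.ker)
    (h0 : ∀ w ∈ S, ∀ g, I w g = 0) : ∀ w ∈ φ.ker, ∀ g, I w g = 0 := by
  let L : Subgroup (FreeGroup α) :=
    { carrier := {w | φ w = 1 ∧ ∀ g, I w g = 0}
      mul_mem' := fun {v w} hv hw => ⟨by simp [hv.1, hw.1], fun g => by
        rw [h.2, hv.2, hw.2, add_zero]⟩
      one_mem' := ⟨map_one _, h.one⟩
      inv_mem' := fun {v} hv => ⟨by simp [hv.1], fun g => by rw [h.inv, hv.2, neg_zero]⟩ }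
  have : L.Normal := ⟨fun w hw v => ⟨by simp [hw.1], fun g => by
    rw [h.2, h.2, hw.2, h.inv, map_mul, hw.1]
    simp⟩⟩
  have h1 : Subgroup.normalClosure S ≤ L := Subgroup.normalClosure_le_normal fun w hw =>
    ⟨by
      have := Subgroup.subset_normalClosure hw
      rwa [hS] at this, h0 w hw⟩
  intro w hw
  rw [← hS] at hw
  exact (h1 hw).2

end

private lemma exists_zchain {G α : Type} [Group G] (φ : FreeGroup α →* G) (w : FreeGroup α) :
    ∀ g : G, ∃ c : G × α →₀ ℤ, ∀ (A : Type) [AddCommGroup A] (ω : G × α → A)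
      (I : FreeGroup α → G → A), IsI φ ω I →
        ∀ x : G, I w (x * g) = c.sum fun e k => k • ω (x * e.1, e.2) := by
  induction w using FreeGroup.induction_on with
  | C1 => exact fun g => ⟨0, fun A _ ω I hI x => by simp [hI.one]⟩
  | of a => exact fun g => ⟨Finsupp.single (g, a) 1, fun A _ ω I hI x => by
      rw [hI.1, Finsupp.sum_single_index (by simp), one_smul]⟩
  | inv_of a h =>
    intro g
    obtain ⟨c, hc⟩ := h (g * (φ (FreeGroup.of a))⁻¹)
    refine ⟨-c, fun A _ ω I hI x => ?_⟩
    rw [hI.inv, mul_assoc, hc A ω I hI, Finsupp.sum_neg_index (by simp)]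
    simp [Finsupp.sum]
  | mul v w hv hw =>
    intro g
    obtain ⟨c, hc⟩ := hv g
    obtain ⟨d, hd⟩ := hw (g * φ v)
    refine ⟨c + d, fun A _ ω I hI x => ?_⟩
    rw [hI.2, mul_assoc, hc A ω I hI, hd A ω I hI,
      Finsupp.sum_add_index' (by simp) (by simp [add_smul])]

theorem exists_pres {G α : Type} [Group G] [Group.IsFinitelyPresented G] [Fintype α] (s : α → G)
    (hs : Subgroup.closure (Set.range s) = ⊤) :
    ∃ (ρ : Type) (_ : Fintype ρ) (c : ρ → G × α →₀ ℤ), IsPres s c := by
  have hφ : Function.Surjective (FreeGroup.lift s) := by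
    rw [← MonoidHom.range_eq_top, FreeGroup.range_lift_eq_closure, hs]
  obtain ⟨T, hT, hTk⟩ := ker_lift_fin s hφ
  choose c hc using exists_zchain (FreeGroup.lift s)
  refine ⟨T, hT.fintype, fun r => c r 1, hs, fun A _ f r x => ?_, fun ω hω => ?_⟩
  · have h1 : FreeGroup.lift s r = 1 := by
      have := Subgroup.subset_normalClosure r.2
      rwa [hTk] at this
    have h2 := hc r 1 A (fun e => f (e.1 * s e.2) - f e.1)
      (fun w g => f (g * FreeGroup.lift s w) - f g)
      ⟨fun a g => by simp, fun v w g => by simp [mul_assoc]⟩ x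
    rw [← h2]
    simp [h1]
  · obtain ⟨I, hI⟩ := exists_isI (FreeGroup.lift s) ω
    have h0 := hI.ker hTk fun w hw g => by
      have h1 := hc w 1 ℝ ω I hI g
      rw [mul_one] at h1
      rw [h1, ← hω ⟨w, hw⟩ g]
      simp
    let σ : G → FreeGroup α := Function.surjInv hφ
    have hσ : ∀ g, FreeGroup.lift s (σ g) = g := Function.surjInv_eq hφ
    refine ⟨fun g => I (σ g) 1, ?_⟩
    funext ⟨g, a⟩
    have h1 : σ (g * s a) = σ g * FreeGroup.of a *
        ((σ g * FreeGroup.of a)⁻¹ * σ (g * s a)) := by group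
    simp only [df]
    rw [h1, hI.2, hI.2, h0 ((σ g * FreeGroup.of a)⁻¹ * σ (g * s a))
      (by simp [MonoidHom.mem_ker, hσ]), hI.1, hσ]
    simp

end Pool.Agent.Lib.MP_34a149_al.PG
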