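import Pool.Agent.Lib.MP_34a149_al.PG.Key
import Pool.Agent.Lib.MP_34a149_al.PG.Lueck
import Pool.Agent.Lib.MP_34a149_al.PG.Pres

/-!
Descent along abelian covers of bounded degree, and the limit formula.
-/

namespace Pool.Agent.Lib.MP_34a149_al.PG

open Finset Filter Topology

variable {G α ρ : Type} [Group G] [Fintype α] [Fintype ρ] {s : α → G} {c : ρ → G × α →₀ ℤ}

/-- The normalized first Betti number. -/
noncomputable def nb (F : Type) [Field F] (H : Subgroup G) : ℝ :=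
  ((Module.finrank F (homs F H) : ℝ) - 1) / H.index

lemma index_pos (H : Subgroup G) [H.FiniteIndex] : (0 : ℝ) < H.index := by
  exact_mod_cast Nat.pos_of_ne_zero Subgroup.FiniteIndex.index_ne_zero

lemma cnt_anti {ι : Type} [Fintype ι] (n : ι → ℕ) {a b : ℕ} (h : a ∣ b) : cnt n b ≤ cnt n a :=
  card_le_card fun x => by
    simp only [mem_filter, mem_univ, true_and]
    exact h.trans

lemma step (p : ℕ) [Fact p.Prime] [Group.FG G] (H : Subgroup G) [H.FiniteIndex] {ι : Type}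
    [Fintype ι] {n : ι → ℕ} {x : ι → H} {cc : ∀ a, H →* Multiplicative (ZMod (n a))}
    (hS : IsStruct n x cc) (k : ℕ) (hk : 0 < k) (M : ℕ) (hM : (p ^ k) ^ p ^ k ≤ M) :
    ∃ H' : Subgroup G, H' ≤ H ∧ H'.FiniteIndex ∧ pDerived p H k ≤ H' ∧
      nb (ZMod p) H' ≤ nb (ZMod p) H -
        ((cnt n (p ^ k) : ℝ) - cnt n (p ^ (k + 1))) / (M * H.index) := by
  obtain ⟨K, _, ⟨e, he⟩, h1, h2, h3⟩ := key p k hk hS
  have hK : 0 < K.index := by
    rw [he]
    exact pow_pos (Fact.out : p.Prime).pos _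
  have hi : (K.map H.subtype).index = K.index * H.index := Subgroup.index_map_subtype K
  have hH := index_pos H
  refine ⟨K.map H.subtype, Subgroup.map_subtype_le K, ⟨?_⟩, ?_, ?_⟩
  · rw [hi]
    exact mul_ne_zero hK.ne' Subgroup.FiniteIndex.index_ne_zero
  · have := Subgroup.map_mono (f := H.subtype) h2
    rwa [pDerived_map, ← MonoidHom.range_eq_map, Subgroup.range_subtype] at this
  · have a1 : (0 : ℝ) < K.index := by exact_mod_cast hK
    have a2 : (K.index : ℝ) ≤ M := by exact_mod_cast h1.trans hM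
    have a3 : (cnt n (p ^ (k + 1)) : ℝ) ≤ cnt n (p ^ k) := by
      exact_mod_cast cnt_anti n (pow_dvd_pow p (Nat.le_succ k))
    have a4 : ((cnt n (p ^ k) : ℝ) - cnt n (p ^ (k + 1))) / (M * H.index) ≤
        ((cnt n (p ^ k) : ℝ) - cnt n (p ^ (k + 1))) / (K.index * H.index) := by
      gcongr
    have a5 : (Module.finrank (ZMod p) (homs (ZMod p) K) : ℝ) + K.index + cnt n (p ^ k) ≤
        K.index * Module.finrank (ZMod p) (homs (ZMod p) H) + 1 + cnt n (p ^ (k + 1)) := by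
      exact_mod_cast h3
    refine le_trans ?_ (sub_le_sub_left a4 _)
    rw [nb, nb, ← finrank_homs_congr _ (K.equivMapOfInjective _ H.subtype_injective), hi]
    push_cast
    rw [← mul_div_mul_left _ (H.index : ℝ) a1.ne', ← sub_div]
    refine div_le_div_of_nonneg_right ?_ (by positivity)
    linarith

lemma exists_drop (u : ℕ → ℝ) (K : ℕ) (d : ℝ) (h : K * d < u 1 - u (K + 1)) :
    ∃ k, 0 < k ∧ k ≤ K ∧ d < u k - u (k + 1) := by
  induction K with
  | zero => simp at h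
  | succ K ih =>
    by_cases h1 : d < u (K + 1) - u (K + 1 + 1)
    · exact ⟨K + 1, Nat.succ_pos _, le_rfl, h1⟩
    · obtain ⟨k, a1, a2, a3⟩ := ih (by
        push_cast at h
        linarith)
      exact ⟨k, a1, a2.trans (Nat.le_succ _), a3⟩

lemma nb_bounds (h : IsPres s c) (p : ℕ) [Fact p.Prime] (H : Subgroup G) [H.FiniteIndex] :
    0 ≤ nb (ZMod p) H + 1 ∧ nb (ZMod p) H + 1 ≤ (Lc c + 1) * Fintype.card α := by
  have := h.fg
  obtain ⟨ι, _, n, x, cc, hS⟩ := exists_struct H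
  have a1 := tors h H hS p (Fact.out : p.Prime).two_le 1
  have a2 := real_bound h H
  rw [hS.finrank_homs ℝ 0] at a2
  rw [pow_one, ← hS.finrank_homs (ZMod p) p] at a1
  have a3 : (1 : ℝ) ≤ H.index := by
    exact_mod_cast Nat.pos_of_ne_zero Subgroup.FiniteIndex.index_ne_zero
  have a4 : (Module.finrank (ZMod p) (homs (ZMod p) H) : ℝ) + H.index ≤
      (Lc c + 1) * Fintype.card α * H.index + 1 := by
    have : Module.finrank (ZMod p) (homs (ZMod p) H) + H.index ≤
        (Lc c + 1) * Fintype.card α * H.index + 1 := by nlinarith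
    exact_mod_cast this
  rw [nb, div_add_one (by linarith), div_le_iff₀ (by linarith)]
  refine ⟨div_nonneg ?_ (by linarith), by linarith⟩
  linarith [(Nat.cast_nonneg _ : (0 : ℝ) ≤ Module.finrank (ZMod p) (homs (ZMod p) H))]

theorem descent (h : IsPres s c) (p : ℕ) [Fact p.Prime] (ε : ℝ) (hε : 0 < ε) :
    ∃ m : ℕ, ∀ H : Subgroup G, H.FiniteIndex → ∃ H' : Subgroup G, H' ≤ H ∧ H'.FiniteIndex ∧
      pDerived p H m ≤ H' ∧ nb (ZMod p) H' ≤ nb ℝ H' + ε := by
  have := h.fg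
  have hp : p.Prime := Fact.out
  obtain ⟨K, hK⟩ := exists_nat_gt (2 * (Lc c * Fintype.card α) / ε)
  have hK0 : (0 : ℝ) < K := lt_of_le_of_lt (by positivity) hK
  rw [div_lt_iff₀ hε] at hK
  let M := (p ^ K) ^ p ^ K
  have hM : (0 : ℝ) < M := by exact_mod_cast pow_pos (pow_pos hp.pos _) _
  let δ : ℝ := ε / (2 * K) / M
  have hδ : 0 < δ := by positivity
  have main : ∀ T : ℕ, ∀ H : Subgroup G, H.FiniteIndex → nb (ZMod p) H + 1 < T * δ →
      ∃ H' : Subgroup G, H' ≤ H ∧ H'.FiniteIndex ∧ pDerived p H (K * T) ≤ H' ∧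
        nb (ZMod p) H' ≤ nb ℝ H' + ε := by
    intro T
    induction T with
    | zero =>
      intro H _ h1
      have := (nb_bounds h p H).1
      simp only [Nat.cast_zero, zero_mul] at h1
      linarith
    | succ T ih =>
      intro H hH h1
      by_cases h2 : nb (ZMod p) H ≤ nb ℝ H + ε
      · exact ⟨H, le_rfl, hH, pDerived_anti p H (Nat.zero_le _), h2⟩
      have hN := index_pos H
      obtain ⟨ι, _, n, x, cc, hS⟩ := exists_struct H
      have a1 : ((K + 1 : ℕ) : ℝ) * cnt n (p ^ (K + 1)) ≤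
          (K + 1 : ℕ) * cnt n 0 + Lc c * (H.index * Fintype.card α) := by
        exact_mod_cast tors h H hS p hp.two_le (K + 1)
      have a2 : (cnt n (p ^ (K + 1)) : ℝ) ≤ cnt n 0 + ε / 2 * H.index := by
        have b1 : (0 : ℝ) < ((K + 1 : ℕ) : ℝ) := by positivity
        refine le_of_mul_le_mul_left (a1.trans ?_) b1
        push_cast
        nlinarith [mul_pos hε hN, mul_lt_mul_of_pos_right hK hN]
      rw [nb, nb, hS.finrank_homs ℝ 0, hS.finrank_homs (ZMod p) p, not_le, div_add' _ _ _ hN.ne',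
        div_lt_div_iff_of_pos_right hN] at h2
      obtain ⟨k, b1, b2, b3⟩ := exists_drop (fun k => cnt n (p ^ k)) K (ε / (2 * K) * H.index) (by
        have : K * (ε / (2 * K) * H.index) = ε / 2 * H.index := by field_simp
        simp only [pow_one, this]
        linarith)
      obtain ⟨H1, c1, c2, c3, c4⟩ := step p H hS k b1 M (le_trans
        (Nat.pow_le_pow_left (Nat.pow_le_pow_right hp.pos b2) _)
        (Nat.pow_le_pow_right (pow_pos hp.pos _) (Nat.pow_le_pow_right hp.pos b2)))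
      have b4 : δ ≤ ((cnt n (p ^ k) : ℝ) - cnt n (p ^ (k + 1))) / (M * H.index) := by
        rw [le_div_iff₀ (by positivity)]
        have : δ * (M * H.index) = ε / (2 * K) * H.index := by
          simp only [δ]
          field_simp
        linarith
      obtain ⟨H2, d1, d2, d3, d4⟩ := ih H1 c2 (by
        push_cast at h1
        linarith)
      refine ⟨H2, d1.trans c1, d2, le_trans ?_ ((pDerived_mono p c3 _).trans d3), d4⟩
      rw [pDerived_add]
      exact pDerived_anti p H (by nlinarith)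
  obtain ⟨T, hT⟩ := exists_nat_gt ((Lc c + 1) * Fintype.card α / δ)
  rw [div_lt_iff₀ hδ] at hT
  exact ⟨K * T, fun H hH => main T H hH ((nb_bounds h p H).2.trans_lt hT)⟩

lemma nb_mono (p : ℕ) [Fact p.Prime] [Group.FG G] (Γ H : Subgroup G) [Γ.Normal] [H.FiniteIndex]
    (hle : Γ ≤ H) (e : ℕ) (he : Γ.relIndex H = p ^ e) : nb (ZMod p) Γ ≤ nb (ZMod p) H := by
  have a1 := mono p H (Γ.subgroupOf H) e he
  rw [finrank_homs_congr _ (Subgroup.subgroupOfEquivOfLe hle)] at a1
  have a2 : (Γ.subgroupOf H).index * H.index = Γ.index := Subgroup.relIndex_mul_index hle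
  have a3 : (0 : ℝ) < (Γ.subgroupOf H).index := by
    have : 0 < Γ.relIndex H := by
      rw [he]
      exact pow_pos (Fact.out : p.Prime).pos _
    exact_mod_cast this
  have a4 : (Module.finrank (ZMod p) (homs (ZMod p) Γ) : ℝ) + (Γ.subgroupOf H).index ≤
      (Γ.subgroupOf H).index * Module.finrank (ZMod p) (homs (ZMod p) H) + 1 := by
    exact_mod_cast a1
  have hH := index_pos H
  rw [nb, nb, ← a2]
  push_cast
  rw [← mul_div_mul_left _ (H.index : ℝ) a3.ne']
  gcongr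
  linarith

theorem limit (G : Type) [Group G] [Group.IsFinitelyPresented G]
    (Γ : ℕ → Subgroup G) [∀ i, (Γ i).Normal] [∀ i, (Γ i).FiniteIndex] (hΓ : Antitone Γ)
    (hbot : ∀ g, (∀ i, g ∈ Γ i) → g = 1) (p : ℕ) [Fact p.Prime] (F : Type) [Field F] [CharP F p]
    (hp : ∀ j n, ∀ᶠ i in atTop, ∃ H : Subgroup G, H ≤ Γ j ∧ Γ i ≤ pDerived p H n ∧
      ∃ e, (Γ i).relIndex H = p ^ e)
    (α : Type) [Fintype α] (s : α → G) (hs : Subgroup.closure (Set.range s) = ⊤) :
    Tendsto (fun i => ((b1 F (Γ i) : ℝ) - 1) / (Γ i).index) atTop (𝓝 (l2b1 s - l2b0 G)) := by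
  obtain ⟨ρ, _, c, h⟩ := exists_pres s hs
  have := h.fg
  rw [l2b1_sub_l2b0 s hs, Metric.tendsto_nhds]
  intro ε hε
  obtain ⟨m, hm⟩ := descent h p (ε / 3) (by positivity)
  obtain ⟨j, hj⟩ := lueck h Γ hΓ hbot (ε / 3) (by positivity)
  filter_upwards [hp j m, eventually_ge_atTop j] with i ⟨H, a1, a2, e, a3⟩ hi
  have a4 : Γ i ≤ H := a2.trans (pDerived_anti p H (Nat.zero_le _))
  obtain ⟨H', b1, b2, b3, b4⟩ := hm H (Subgroup.finiteIndex_of_le a4)
  obtain ⟨e', -, he'⟩ := (Nat.dvd_prime_pow (Fact.out : p.Prime)).1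
    (a3 ▸ Dvd.intro _ (Subgroup.relIndex_mul_relIndex (Γ i) H' H (a2.trans b3) b1))
  have c1 := nb_mono p (Γ i) H' (a2.trans b3) e' he'
  have c2 := abs_le.1 (hj H' (b1.trans a1) b2)
  have c3 := abs_le.1 (hj (Γ i) (hΓ hi) inferInstance)
  obtain ⟨ι, _, n, x, cc, hS⟩ := exists_struct (Γ i)
  have c4 : nb ℝ (Γ i) ≤ nb (ZMod p) (Γ i) := by
    have := index_pos (Γ i)
    rw [nb, nb, hS.finrank_homs ℝ 0, hS.finrank_homs (ZMod p) p]
    gcongr
    exact cnt_anti n (dvd_zero p)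
  rw [b1_eq, hS.finrank_homs F p, ← hS.finrank_homs (ZMod p) p, Real.dist_eq, abs_lt]
  unfold nb at c1 c4 b4
  constructor <;> linarith [c2.2, c3.1]

end Pool.Agent.Lib.MP_34a149_al.PG
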