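import Pool.Agent.Lib.MP_34a149_al.PG.Base

/-!
Cyclic decomposition of the abelianization and spaces of homomorphisms.
-/

namespace Pool.Agent.Lib.MP_34a149_al.PG

open Finset

theorem exists_struct (P : Type) [Group P] [Group.FG P] :
    ∃ (ι : Type) (_ : Fintype ι) (n : ι → ℕ) (x : ι → P)
      (c : ∀ a, P →* Multiplicative (ZMod (n a))), IsStruct n x c := by
  classical
  have hs : Function.Surjective (Abelianization.of : P →* Abelianization P) :=
    QuotientGroup.mk_surjective
  have : Group.FG (Abelianization P) := Group.fg_of_surjective hs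
  obtain ⟨ι, j, _, _, p, -, e, ⟨φ⟩⟩ :=
    CommGroup.equiv_free_prod_prod_multiplicative_zmod (Abelianization P)
  let ψ := φ.toMonoidHom.comp (Abelianization.of : P →* Abelianization P)
  have hψ : Function.Surjective ψ := φ.surjective.comp hs
  choose s hs' using hψ
  let n : j ⊕ ι → ℕ := fun a => match a with
    | .inl _ => 0
    | .inr i => p i ^ e i
  let x : j ⊕ ι → P := fun a => match a with
    | .inl b => s (Pi.mulSingle b (Multiplicative.ofAdd 1), 1)
    | .inr i => s (1, Pi.mulSingle i (Multiplicative.ofAdd 1))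
  let c : ∀ a, P →* Multiplicative (ZMod (n a)) := fun a => match a with
    | .inl b => (Pi.evalMonoidHom (fun _ : j => Multiplicative ℤ) b).comp
        ((MonoidHom.fst _ _).comp ψ)
    | .inr i => (Pi.evalMonoidHom (fun i : ι => Multiplicative (ZMod (p i ^ e i))) i).comp
        ((MonoidHom.snd _ _).comp ψ)
  have c1 : ∀ b g, c (.inl b) g = (ψ g).1 b := fun _ _ => rfl
  have c2 : ∀ i g, c (.inr i) g = (ψ g).2 i := fun _ _ => rfl
  refine ⟨j ⊕ ι, inferInstance, n, x, c, ⟨?_, ?_, ?_⟩⟩
  · rintro (b | i)
    · rw [c1]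
      simp only [x, hs', Pi.mulSingle_eq_same]
      rfl
    · rw [c2]
      simp only [x, hs', Pi.mulSingle_eq_same]
  · rintro (b | i) (b' | i') hab
    · rw [c1]
      simp only [x, hs']
      exact Pi.mulSingle_eq_of_ne (fun h => hab (by rw [h])) _
    · rw [c1]
      simp only [x, hs']
      rfl
    · rw [c2]
      simp only [x, hs']
      rfl
    · rw [c2]
      simp only [x, hs']
      exact Pi.mulSingle_eq_of_ne (fun h => hab (by rw [h])) _
  · intro g hg
    have h1 : ψ g = 1 := Prod.ext (funext fun b => hg (.inl b)) (funext fun i => hg (.inr i))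
    have h2 : Abelianization.of g = 1 := φ.injective (h1.trans φ.map_one.symm)
    rw [← Abelianization.ker_of]
    exact h2

theorem b1_eq (F : Type) [Field F] (P : Type) [Group P] [Group.FG P] :
    b1 F P = Module.finrank F (homs F P) := by
  let ev : Module.Dual F (groupHomology.H1 (Rep.trivial F P F)) →ₗ[F] homs F P :=
    LinearMap.codRestrict _
      (LinearMap.pi fun g => Module.Dual.eval F _ (clsL F (Finsupp.single g 1)))
      fun L g h => by
        change L _ = L _ + L _
        rw [clsL_mul, map_add]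
  have hev : ∀ L g, (ev L).1 g = L (clsL F (Finsupp.single g 1)) := fun _ _ => rfl
  have h1 : Function.Injective ev := by
    rw [injective_iff_map_eq_zero]
    intro L hL
    refine LinearMap.ext fun z => ?_
    obtain ⟨c, rfl⟩ := clsL_surj F z
    induction c using Finsupp.induction_linear with
    | zero => simp
    | add a b ha hb =>
      rw [map_add, map_add, ha, hb]
      simp
    | single g r =>
      rw [← mul_one r, ← smul_eq_mul, ← Finsupp.smul_single, map_smul, map_smul, ← hev, hL]
      simp
  have h2 : Function.Surjective ev := fun l => by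
    obtain ⟨L, hL⟩ := exists_dual F l.1 l.2
    exact ⟨L, Subtype.ext (funext hL)⟩
  rw [← (LinearEquiv.ofBijective ev ⟨h1, h2⟩).finrank_eq, Subspace.dual_finrank_eq]
  rfl

theorem finrank_homs_congr (F : Type) [Field F] {P Q : Type} [Group P] [Group Q] (e : P ≃* Q) :
    Module.finrank F (homs F P) = Module.finrank F (homs F Q) := by
  refine LinearEquiv.finrank_eq
    { toFun := fun l => ⟨fun g => l.1 (e.symm g), fun g h =>
        (congrArg l.1 (map_mul e.symm g h)).trans (l.2 _ _)⟩
      map_add' := fun _ _ => rfl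
      map_smul' := fun _ _ => rfl
      invFun := fun l => ⟨fun g => l.1 (e g), fun g h =>
        (congrArg l.1 (map_mul e g h)).trans (l.2 _ _)⟩
      left_inv := fun l => Subtype.ext (funext fun g => by simp)
      right_inv := fun l => Subtype.ext (funext fun g => by simp) }

/-- An element of `homs A P` as a group homomorphism. -/
def homsHom {A : Type} [CommRing A] {P : Type} [Group P] {l : P → A} (hl : l ∈ homs A P) :
    P →* Multiplicative A :=
  MonoidHom.mk' (fun g => Multiplicative.ofAdd (l g)) fun g h => by rw [hl g h, ofAdd_add]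

lemma homs_commutator {A : Type} [CommRing A] {P : Type} [Group P] {l : P → A}
    (hl : l ∈ homs A P) {g : P} (hg : g ∈ commutator P) : l g = 0 :=
  Abelianization.commutator_subset_ker (homsHom hl) hg

lemma homs_pow {A : Type} [CommRing A] {P : Type} [Group P] {l : P → A}
    (hl : l ∈ homs A P) (g : P) (k : ℕ) : l (g ^ k) = k * l g := by
  induction k with
  | zero => simpa using homs_one hl
  | succ k ih =>
    rw [pow_succ, hl, ih]
    push_cast
    ring

variable {P ι : Type} [Group P] {n : ι → ℕ} {x : ι → P}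
  {c : ∀ a, P →* Multiplicative (ZMod (n a))}

theorem IsStruct.pow_mem (h : IsStruct n x c) (a : ι) : x a ^ n a ∈ commutator P := by
  refine h.ker _ fun b => ?_
  rw [map_pow]
  by_cases hb : b = a
  · subst hb
    rw [h.self, ← ofAdd_nsmul]
    simp
  · rw [h.ne b a hb, one_pow]

lemma IsStruct.map_eq [Fintype ι] (h : IsStruct n x c) {C : Type} [CommGroup C] (f : P →* C)
    (g : P) : f g = ∏ a, f (x a) ^ (ZMod.cast (c a g).toAdd : ℤ) := by
  obtain ⟨u, hu⟩ : ∃ u : P, Abelianization.of u =
      ∏ a, Abelianization.of (x a) ^ (ZMod.cast (c a g).toAdd : ℤ) :=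
    QuotientGroup.mk_surjective _
  have h1 : ∀ {C : Type} [CommGroup C] (f : P →* C),
      f u = ∏ a, f (x a) ^ (ZMod.cast (c a g).toAdd : ℤ) := by
    intro C _ f
    have := congrArg (Abelianization.lift f) hu
    simpa [map_prod, map_zpow] using this
  have h2 : g * u⁻¹ ∈ commutator P := by
    refine h.ker _ fun b => ?_
    rw [map_mul, map_inv, mul_inv_eq_one, h1 (c b), prod_eq_single b
      (fun a _ ha => by rw [h.ne b a (Ne.symm ha), one_zpow]) (by simp), h.self, ← ofAdd_zsmul]
    simp
  have h3 : f (g * u⁻¹) = 1 := Abelianization.commutator_subset_ker f h2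
  rw [map_mul, map_inv, mul_inv_eq_one] at h3
  rw [h3, h1 f]

theorem IsStruct.hom_eq [Fintype ι] (h : IsStruct n x c) {A : Type} [CommRing A] {l : P → A}
    (hl : l ∈ homs A P) (g : P) :
    l g = ∑ a, (ZMod.cast (c a g).toAdd : ℤ) • l (x a) := by
  have := congrArg Multiplicative.toAdd (h.map_eq (homsHom hl) g)
  rw [toAdd_prod] at this
  exact this

lemma IsStruct.hom_zero' [Fintype ι] (h : IsStruct n x c) {F : Type} [Field F] (q : ℕ)
    [CharP F q] {l : P → F} (hl : l ∈ homs F P) (h0 : ∀ a, q ∣ n a → l (x a) = 0) : l = 0 := by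
  have h1 : ∀ a, l (x a) = 0 := fun a => by
    by_cases ha : q ∣ n a
    · exact h0 a ha
    · have h2 := homs_commutator hl (h.pow_mem a)
      rw [homs_pow hl] at h2
      exact (mul_eq_zero.1 h2).resolve_left fun h3 => ha ((CharP.cast_eq_zero_iff F q _).1 h3)
  funext g
  rw [h.hom_eq hl g]
  simp [h1]

theorem IsStruct.hom_zero [Fintype ι] (h : IsStruct n x c) (p : ℕ) [Fact p.Prime]
    {l : P → ZMod p} (hl : l ∈ homs (ZMod p) P) (h0 : ∀ a, p ∣ n a → l (x a) = 0) : l = 0 :=
  h.hom_zero' p hl h0

lemma IsStruct.exists_hom [Fintype ι] (h : IsStruct n x c) (A : Type) [CommRing A] (q : ℕ)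
    [CharP A q] (v : {a // q ∣ n a} → A) :
    ∃ l : homs A P, ∀ a : {a // q ∣ n a}, l.1 (x a) = v a := by
  classical
  refine ⟨⟨fun g => ∑ a : {a // q ∣ n a}, v a * ZMod.castHom a.2 A (c a g).toAdd,
    fun g g' => ?_⟩, fun b => ?_⟩
  · simp only [map_mul, toAdd_mul, map_add, mul_add, sum_add_distrib]
  · change ∑ a : {a // q ∣ n a}, v a * ZMod.castHom a.2 A (c a (x b)).toAdd = v b
    rw [sum_eq_single b (fun a _ ha => by
      rw [h.ne a b fun h => ha (Subtype.ext h), toAdd_one, map_zero, mul_zero]) (by simp),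
      h.self, toAdd_ofAdd, map_one, mul_one]

lemma card_eq_cnt [Fintype ι] (n : ι → ℕ) (q : ℕ) : Fintype.card {a // q ∣ n a} = cnt n q :=
  Fintype.card_subtype _

theorem IsStruct.finrank_homs [Fintype ι] (h : IsStruct n x c) (F : Type) [Field F] (q : ℕ)
    [CharP F q] : Module.finrank F (homs F P) = cnt n q := by
  let ρ : homs F P →ₗ[F] ({a // q ∣ n a} → F) :=
    LinearMap.funLeft F F (fun a : {a // q ∣ n a} => x a) ∘ₗ (homs F P).subtype
  have h1 : Function.Injective ρ := by
    rw [injective_iff_map_eq_zero]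
    intro l hl
    exact Subtype.ext (h.hom_zero' q l.2 fun a ha => congrFun hl ⟨a, ha⟩)
  have h2 : Function.Surjective ρ := fun v => by
    obtain ⟨l, hl⟩ := h.exists_hom F q v
    exact ⟨l, funext hl⟩
  rw [(LinearEquiv.ofBijective ρ ⟨h1, h2⟩).finrank_eq, Module.finrank_fintype_fun_eq_card,
    card_eq_cnt]

theorem IsStruct.card_homs [Fintype ι] [Group.FG P] (h : IsStruct n x c) (m : ℕ) [NeZero m] :
    m ^ cnt n m ≤ Nat.card (homs (ZMod m) P) := by
  have h1 : Function.Surjective
      fun (l : homs (ZMod m) P) (a : {a // m ∣ n a}) => l.1 (x a) := fun v => by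
    obtain ⟨l, hl⟩ := h.exists_hom (ZMod m) m v
    exact ⟨l, funext hl⟩
  have h2 := Nat.card_le_card_of_surjective _ h1
  rwa [Nat.card_fun, Nat.card_zmod, Nat.card_eq_fintype_card, card_eq_cnt] at h2

end Pool.Agent.Lib.MP_34a149_al.PG
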